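import Mathlib

set_option autoImplicit false

namespace Pool.Agent.H492R2.Tor

open Finset

/-- A finite linear combination of homomorphisms `G → ℂ` that vanishes on a subgroup `B` also
vanishes at every `u` at which homomorphisms with equal restriction to `B` take equal values. -/
theorem artin_extend {G : Type*} [CommGroup G] (B : Subgroup G) {ι : Type*} (t : Finset ι)
    (c : ι → ℂ) (χ : ι → (G →* ℂ)) (h : ∀ b ∈ B, ∑ i ∈ t, c i * χ i b = 0) (u : G)
    (hu : ∀ i ∈ t, ∀ j ∈ t, (∀ b ∈ B, χ i b = χ j b) → χ i u = χ j u) :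
    ∑ i ∈ t, c i * χ i u = 0 := by
  classical
  let ψ : ι → (B →* ℂ) := fun i => (χ i).comp B.subtype
  have hLI := linearIndependent_monoidHom B ℂ
  -- coefficient sums over fibres vanish
  have hfib : ∀ f ∈ t.image ψ, ∑ i ∈ t with ψ i = f, c i = 0 := by
    have hsum : ∑ f ∈ t.image ψ, (∑ i ∈ t with ψ i = f, c i) • ((f : B →* ℂ) : B → ℂ) = 0 := by
      funext b
      rw [Finset.sum_apply]
      have h1 := h b b.2
      rw [← Finset.sum_fiberwise_of_maps_to (g := ψ) (t := t.image ψ)
        (fun i hi => Finset.mem_image_of_mem ψ hi)] at h1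
      rw [Pi.zero_apply, ← h1]
      apply Finset.sum_congr rfl
      intro f _
      rw [Pi.smul_apply, smul_eq_mul, Finset.sum_mul]
      apply Finset.sum_congr rfl
      intro i hi
      rw [Finset.mem_filter] at hi
      rw [← hi.2]
      rfl
    exact linearIndependent_iff'.mp hLI (t.image ψ) _ hsum
  rw [← Finset.sum_fiberwise_of_maps_to (g := ψ) (t := t.image ψ)
        (fun i hi => Finset.mem_image_of_mem ψ hi)]
  apply Finset.sum_eq_zero
  intro f hf
  obtain ⟨i0, hi0, rfl⟩ := Finset.mem_image.mp hf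
  have hconst : ∀ i ∈ t.filter (fun i => ψ i = ψ i0), c i * χ i u = c i * χ i0 u := by
    intro i hi
    rw [Finset.mem_filter] at hi
    congr 1
    apply hu i hi.1 i0 hi0
    intro b hb
    have := congrArg (fun g : B →* ℂ => g ⟨b, hb⟩) hi.2
    exact this
  rw [Finset.sum_congr rfl hconst, ← Finset.sum_mul, hfib _ hf, zero_mul]

end Pool.Agent.H492R2.Tor
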