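import Mathlib

set_option autoImplicit false

namespace Pool.Agent.H492R2.Tor

open Filter Topology

variable {V : Type*} [NormedAddCommGroup V] [NormedSpace ℝ V] [FiniteDimensional ℝ V]

/-- The largest real subspace contained in an additive subgroup. -/
def lineSpace (Γ : AddSubgroup V) : Submodule ℝ V where
  carrier := {z | ∀ t : ℝ, t • z ∈ Γ}
  add_mem' := by
    intro a b ha hb t
    rw [smul_add]
    exact Γ.add_mem (ha t) (hb t)
  zero_mem' := by
    intro t
    rw [smul_zero]
    exact Γ.zero_mem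
  smul_mem' := by
    intro c x hx t
    rw [smul_smul]
    exact hx _

omit [FiniteDimensional ℝ V] in
lemma mem_lineSpace {Γ : AddSubgroup V} {z : V} : z ∈ lineSpace Γ ↔ ∀ t : ℝ, t • z ∈ Γ := Iff.rfl

omit [FiniteDimensional ℝ V] in
lemma lineSpace_le {Γ : AddSubgroup V} {z : V} (h : z ∈ lineSpace Γ) : z ∈ Γ := by
  have := h 1
  rwa [one_smul] at this

/-- Near `0` a closed subgroup of a finite dimensional real vector space consists of points whose
lines lie in the subgroup. -/
theorem small_mem_lines (Γ : AddSubgroup V) (hΓ : IsClosed (Γ : Set V)) :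
    ∃ ε > 0, ∀ z ∈ Γ, ‖z‖ < ε → ∀ t : ℝ, t • z ∈ Γ := by
  classical
  by_contra hcon
  push Not at hcon
  obtain ⟨W, hW⟩ := Submodule.exists_isCompl (lineSpace Γ)
  -- choose a sequence
  have hseq : ∀ n : ℕ, ∃ z ∈ Γ, ‖z‖ < 1 / ((n : ℝ) + 1) ∧ z ∉ lineSpace Γ := by
    intro n
    obtain ⟨z, hz, hz1, t, ht⟩ := hcon (1 / ((n : ℝ) + 1)) (by positivity)
    exact ⟨z, hz, hz1, fun h => ht (h t)⟩
  choose z hzΓ hznorm hzL using hseq
  have hz0 : Tendsto z atTop (𝓝 0) := by
    rw [tendsto_zero_iff_norm_tendsto_zero]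
    refine squeeze_zero (fun _ => norm_nonneg _) (fun n => (hznorm n).le) ?_
    exact tendsto_one_div_add_atTop_nhds_zero_nat
  -- projection to the complement
  let q : V →ₗ[ℝ] V := W.subtype ∘ₗ Submodule.projectionOnto W (lineSpace Γ) hW.symm
  have hqc : Continuous q := LinearMap.continuous_of_finiteDimensional q
  have hqW : ∀ x, q x ∈ W := by intro x; simp [q]
  have hqL : ∀ x, x - q x ∈ lineSpace Γ := by
    intro x
    have h1 := Submodule.projectionOnto_apply_eq_zero_iff hW.symm (x := x - q x)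
    rw [← h1, map_sub]
    have h2 : (Submodule.projectionOnto W (lineSpace Γ) hW.symm) (q x) =
        (Submodule.projectionOnto W (lineSpace Γ) hW.symm) x := by
      show (Submodule.projectionOnto W (lineSpace Γ) hW.symm)
        ((Submodule.projectionOnto W (lineSpace Γ) hW.symm x : W) : V) = _
      rw [Submodule.projectionOnto_apply_left]
    rw [h2, sub_self]
  set d : ℕ → V := fun n => q (z n) with hd
  have hdΓ : ∀ n, d n ∈ Γ := by
    intro n
    have h1 := lineSpace_le (hqL (z n))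
    have h2 := Γ.sub_mem (hzΓ n) h1
    simpa [hd] using h2
  have hd0 : ∀ n, d n ≠ 0 := by
    intro n h
    apply hzL n
    have := hqL (z n)
    rw [hd] at h
    simp only at h
    rwa [h, sub_zero] at this
  have hdt : Tendsto d atTop (𝓝 0) := by
    have := (hqc.tendsto 0).comp hz0
    rw [map_zero] at this
    exact this
  have hdn : Tendsto (fun n => ‖d n‖) atTop (𝓝 0) := by
    simpa using hdt.norm
  -- unit vectors
  set u : ℕ → V := fun n => ‖d n‖⁻¹ • d n with hu
  have hun : ∀ n, ‖u n‖ = 1 := by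
    intro n
    rw [hu]
    simp only
    rw [norm_smul, norm_inv, norm_norm, inv_mul_cancel₀ (norm_ne_zero_iff.mpr (hd0 n))]
  have hsph : ∀ n, u n ∈ Metric.sphere (0 : V) 1 := by
    intro n; rw [mem_sphere_zero_iff_norm]; exact hun n
  obtain ⟨v, hv, φ, hφ, hlim⟩ := (isCompact_sphere (0 : V) 1).tendsto_subseq hsph
  have hv1 : ‖v‖ = 1 := mem_sphere_zero_iff_norm.mp hv
  have hvW : v ∈ W := by
    have hWc : IsClosed (W : Set V) := W.closed_of_finiteDimensional
    refine hWc.mem_of_tendsto hlim (Eventually.of_forall fun n => ?_)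
    exact W.smul_mem _ (hqW _)
  have hvL : v ∈ lineSpace Γ := by
    intro t
    -- approximate t • v
    have hstep : ∀ n, (⌊t / ‖d (φ n)‖⌋ : ℤ) • d (φ n) ∈ Γ := fun n => Γ.zsmul_mem (hdΓ _) _
    have heq : ∀ n, (⌊t / ‖d (φ n)‖⌋ : ℤ) • d (φ n) =
        (((⌊t / ‖d (φ n)‖⌋ : ℤ) : ℝ) * ‖d (φ n)‖) • u (φ n) := by
      intro n
      rw [hu]
      simp only
      rw [smul_smul, mul_assoc, mul_inv_cancel₀ (norm_ne_zero_iff.mpr (hd0 _)), mul_one]
      exact (Int.cast_smul_eq_zsmul ℝ _ _).symm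
    have hcoef : Tendsto (fun n => ((⌊t / ‖d (φ n)‖⌋ : ℤ) : ℝ) * ‖d (φ n)‖) atTop (𝓝 t) := by
      rw [tendsto_iff_norm_sub_tendsto_zero]
      have hdn' : Tendsto (fun n => ‖d (φ n)‖) atTop (𝓝 0) := hdn.comp hφ.tendsto_atTop
      refine squeeze_zero (fun _ => norm_nonneg _) (fun n => ?_) hdn'
      have hp : 0 < ‖d (φ n)‖ := norm_pos_iff.mpr (hd0 _)
      have e : t = (t / ‖d (φ n)‖) * ‖d (φ n)‖ := by field_simp
      have h1 := Int.floor_le (t / ‖d (φ n)‖)
      have h2 := Int.lt_floor_add_one (t / ‖d (φ n)‖)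
      rw [Real.norm_eq_abs, abs_le]
      constructor <;> nlinarith
    have hfin : Tendsto (fun n => (⌊t / ‖d (φ n)‖⌋ : ℤ) • d (φ n)) atTop (𝓝 (t • v)) := by
      have := hcoef.smul hlim
      refine this.congr (fun n => ?_)
      exact (heq n).symm
    exact hΓ.mem_of_tendsto hfin (Eventually.of_forall hstep)
  have hv0 : v = 0 := by
    have := Submodule.disjoint_def.mp hW.disjoint v hvL hvW
    exact this
  rw [hv0, norm_zero] at hv1
  exact zero_ne_one hv1

end Pool.Agent.H492R2.Tor
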