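import Mathlib

set_option autoImplicit false

/-!
# Real closures of finitely generated groups of rational points on `R_{K/ℚ}(G_m)`

`K` is a number field and `A = R_{K/ℚ}(G_m)` is the Weil restriction torus: `A(ℚ) = Kˣ`,
`A(ℝ) = (K ⊗ ℝ)ˣ`.  Mathlib's `mixedSpace K` is the `ℝ`-algebra `K ⊗ ℝ = ℝ^{r₁} × ℂ^{r₂}`.
-/

namespace Pool.Agent.H492R2.Tor

open NumberField NumberField.mixedEmbedding

variable (K : Type) [Field K] [NumberField K]

/-- `A(ℝ) = (K ⊗ ℝ)ˣ` for `A = R_{K/ℚ}(G_m)`, with the topology of a group of units. -/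
abbrev RealPoints : Type := (mixedSpace K)ˣ

/-- The inclusion `A(ℚ) = Kˣ → (K ⊗ ℝ)ˣ = A(ℝ)`. -/
noncomputable def inclusion : Kˣ →* RealPoints K :=
  Units.map ((mixedEmbedding K : K →+* mixedSpace K) : K →* mixedSpace K)

/-- The coordinates of a point of `A(ℝ) ⊆ K ⊗ ℝ` with respect to a `ℚ`-basis of `K` (an integral
basis). -/
noncomputable def coord (u : RealPoints K) : Module.Free.ChooseBasisIndex ℤ (𝓞 K) → ℝ :=
  fun i => (latticeBasis K).repr (u : mixedSpace K) i

/-- `B ⊆ A(ℝ)` is a subgroup cut out by polynomial equations with rational coefficients in the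
coordinates.  For every algebraic subgroup `𝓑 ⊆ A` defined over `ℚ` the group `𝓑(ℝ)` is such a
subgroup. -/
def IsRationalAlgebraic (B : Subgroup (RealPoints K)) : Prop :=
  ∃ S : Set (MvPolynomial (Module.Free.ChooseBasisIndex ℤ (𝓞 K)) ℚ),
    ∀ u : RealPoints K, u ∈ B ↔ ∀ f ∈ S, MvPolynomial.aeval (coord K u) f = 0

/-- The closure in `A(ℝ)` of a subgroup `L` of `A(ℚ) = Kˣ`. -/
noncomputable def closureIn (L : Subgroup Kˣ) : Subgroup (RealPoints K) :=
  (L.map (inclusion K)).topologicalClosure

/-- The identity component of the closure in `A(ℝ)` of a subgroup `L` of `A(ℚ)`. -/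
noncomputable def identityComponent (L : Subgroup Kˣ) : Subgroup (RealPoints K) :=
  (Subgroup.connectedComponentOfOne (closureIn K L)).map (closureIn K L).subtype

/-- The real part of the expected answer for `A = R_{K/ℚ}(G_m)`: for every finitely generated
`L ⊆ A(ℚ)` the identity component of the closure of `L` in `A(ℝ)` is a subgroup of finite index in
`B(ℝ)` for some algebraic subgroup `B ⊆ A` defined over `ℚ`. -/
def ExpectedAnswerReal : Prop :=
  ∀ L : Subgroup Kˣ, L.FG → ∃ B : Subgroup (RealPoints K), IsRationalAlgebraic K B ∧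
    identityComponent K L ≤ B ∧ (identityComponent K L).relIndex B ≠ 0

end Pool.Agent.H492R2.Tor
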