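import Mathlib
import Pool.Agent.H492R2.Tor.Defs
import Pool.Agent.H492R2.Tor.Closed
import Pool.Agent.H492R2.Tor.Artin

set_option autoImplicit false

namespace Pool.Agent.H492R2.Tor

open NumberField NumberField.mixedEmbedding NumberField.InfinitePlace

variable (K : Type) [Field K] [NumberField K]

/-- The complex places of `K`. -/
abbrev CPlace : Type := {w : InfinitePlace K // IsComplex w}

/-- The exponential map into the complex coordinates. -/
noncomputable def E (z : CPlace K → ℂ) : RealPoints K where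
  val := (1, fun w => Complex.exp (z w))
  inv := (1, fun w => Complex.exp (-z w))
  val_inv := by
    ext w <;> simp [← Complex.exp_add]
  inv_val := by
    ext w <;> simp [← Complex.exp_add]

lemma E_snd (z : CPlace K → ℂ) (w : CPlace K) :
    ((E K z : RealPoints K) : mixedSpace K).2 w = Complex.exp (z w) := rfl

lemma E_zero : E K 0 = 1 := by
  ext w <;> simp [E]

lemma E_add (z z' : CPlace K → ℂ) : E K (z + z') = E K z * E K z' := by
  ext w <;> simp [E, Complex.exp_add]

lemma E_neg (z : CPlace K → ℂ) : E K (-z) = (E K z)⁻¹ := by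
  rw [eq_inv_iff_mul_eq_one, ← E_add, neg_add_cancel, E_zero]

lemma E_continuous : Continuous (E K) := by
  rw [Units.continuous_iff]
  constructor
  · refine Continuous.prodMk continuous_const ?_
    exact continuous_pi fun w => Complex.continuous_exp.comp (continuous_apply w)
  · refine Continuous.prodMk continuous_const ?_
    exact continuous_pi fun w => Complex.continuous_exp.comp (continuous_apply w).neg

/-- The logarithmic map. -/
noncomputable def lg (u : RealPoints K) (w : CPlace K) : ℝ := Real.log ‖(u : mixedSpace K).2 w‖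

variable {K}

lemma snd_ne_zero (u : RealPoints K) (w : CPlace K) : (u : mixedSpace K).2 w ≠ 0 := by
  intro h
  have h1 : ((u * u⁻¹ : RealPoints K) : mixedSpace K).2 w = 1 := by
    rw [mul_inv_cancel]; rfl
  have h2 : ((u * u⁻¹ : RealPoints K) : mixedSpace K).2 w =
      (u : mixedSpace K).2 w * ((u⁻¹ : RealPoints K) : mixedSpace K).2 w := rfl
  rw [h2, h, zero_mul] at h1
  exact zero_ne_one h1

lemma exp_lg (u : RealPoints K) (w : CPlace K) : Real.exp (lg K u w) = ‖(u : mixedSpace K).2 w‖ := by
  unfold lg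
  rw [Real.exp_log]
  exact norm_pos_iff.mpr (snd_ne_zero u w)

lemma lg_mul (u v : RealPoints K) : lg K (u * v) = lg K u + lg K v := by
  funext w
  have h2 : ((u * v : RealPoints K) : mixedSpace K).2 w =
      (u : mixedSpace K).2 w * (v : mixedSpace K).2 w := rfl
  simp only [lg, Pi.add_apply]
  rw [h2, norm_mul, Real.log_mul]
  · exact norm_ne_zero_iff.mpr (snd_ne_zero u w)
  · exact norm_ne_zero_iff.mpr (snd_ne_zero v w)

lemma lg_one : lg K (1 : RealPoints K) = 0 := by
  funext w
  have : ((1 : RealPoints K) : mixedSpace K).2 w = 1 := rfl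
  simp [lg]

lemma lg_inv (u : RealPoints K) : lg K u⁻¹ = - lg K u := by
  have := lg_mul u u⁻¹
  rw [mul_inv_cancel, lg_one] at this
  exact (neg_eq_of_add_eq_zero_right this.symm).symm

lemma lg_pow (u : RealPoints K) (n : ℕ) : lg K (u ^ n) = (n : ℝ) • lg K u := by
  induction n with
  | zero => simp [lg_one]
  | succ n ih =>
    rw [pow_succ, lg_mul, ih]
    push_cast
    rw [add_smul, one_smul]

lemma lg_E (z : CPlace K → ℂ) (w : CPlace K) : lg K (E K z) w = (z w).re := by
  unfold lg
  rw [E_snd, Complex.norm_exp, Real.log_exp]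

lemma lg_continuous : Continuous (fun u : RealPoints K => lg K u) := by
  refine continuous_pi fun w => ?_
  have h1 : Continuous (fun u : RealPoints K => (u : mixedSpace K).2 w) :=
    (continuous_apply w).comp (continuous_snd.comp Units.continuous_val)
  exact h1.norm.log (fun u => norm_ne_zero_iff.mpr (snd_ne_zero u w))

/-- The linear map `t ↦ (∑ i, t i * s w i)_w`. -/
noncomputable def Sm (s : CPlace K → Fin 3 → ℤ) : (Fin 3 → ℝ) →ₗ[ℝ] (CPlace K → ℝ) where
  toFun t := fun w => ∑ i, t i * (s w i : ℝ)
  map_add' := by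
    intro a b
    funext w
    simp only [Pi.add_apply, add_mul, Finset.sum_add_distrib]
  map_smul' := by
    intro c a
    funext w
    simp only [Pi.smul_apply, smul_eq_mul, RingHom.id_apply, Finset.mul_sum, mul_assoc]

lemma Sm_apply (s : CPlace K → Fin 3 → ℤ) (t : Fin 3 → ℝ) (w : CPlace K) :
    Sm s t w = ∑ i, t i * (s w i : ℝ) := rfl

/-- The functional `t ↦ ∑ i, t i * lam i`. -/
noncomputable def Phi (lam : Fin 3 → ℝ) : (Fin 3 → ℝ) →ₗ[ℝ] ℝ where
  toFun t := ∑ i, t i * lam i
  map_add' := by
    intro a b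
    simp only [Pi.add_apply, add_mul, Finset.sum_add_distrib]
  map_smul' := by
    intro c a
    simp only [Pi.smul_apply, smul_eq_mul, RingHom.id_apply, Finset.mul_sum, mul_assoc]

lemma Phi_apply (lam t : Fin 3 → ℝ) : Phi lam t = ∑ i, t i * lam i := rfl

/-- The plane of possible logarithms. -/
noncomputable def plane (s : CPlace K → Fin 3 → ℤ) (lam : Fin 3 → ℝ) :
    Submodule ℝ (CPlace K → ℝ) := (LinearMap.ker (Phi lam)).map (Sm s)

/-- The subgroup of points whose logarithm lies in the plane. -/
noncomputable def planeGroup (s : CPlace K → Fin 3 → ℤ) (lam : Fin 3 → ℝ) :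
    Subgroup (RealPoints K) where
  carrier := {u | lg K u ∈ plane s lam}
  mul_mem' := by
    intro a b ha hb
    show lg K (a * b) ∈ plane s lam
    rw [lg_mul]
    exact (plane s lam).add_mem ha hb
  one_mem' := by
    show lg K 1 ∈ plane s lam
    rw [lg_one]
    exact (plane s lam).zero_mem
  inv_mem' := by
    intro a ha
    show lg K a⁻¹ ∈ plane s lam
    rw [lg_inv]
    exact (plane s lam).neg_mem ha

lemma mem_planeGroup (s : CPlace K → Fin 3 → ℤ) (lam : Fin 3 → ℝ) (u : RealPoints K) :
    u ∈ planeGroup s lam ↔ ∃ t : Fin 3 → ℝ, ∑ i, t i * lam i = 0 ∧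
      ∀ w, lg K u w = ∑ i, t i * (s w i : ℝ) := by
  show lg K u ∈ plane s lam ↔ _
  unfold plane
  rw [Submodule.mem_map]
  constructor
  · rintro ⟨t, ht, htu⟩
    refine ⟨t, ht, fun w => ?_⟩
    rw [← htu, Sm_apply]
  · rintro ⟨t, ht, htu⟩
    refine ⟨t, ht, ?_⟩
    funext w
    rw [htu w, Sm_apply]

lemma planeGroup_closed (s : CPlace K → Fin 3 → ℤ) (lam : Fin 3 → ℝ) :
    IsClosed (planeGroup s lam : Set (RealPoints K)) := by
  have h : IsClosed ((plane s lam : Submodule ℝ (CPlace K → ℝ)) : Set (CPlace K → ℝ)) :=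
    Submodule.closed_of_finiteDimensional _
  exact h.preimage lg_continuous

end Pool.Agent.H492R2.Tor
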