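import Mathlib
import Pool.Agent.H492R2.Tor.Core1

set_option autoImplicit false
set_option linter.unusedSectionVars false

namespace Pool.Agent.H492R2.Tor

open NumberField NumberField.mixedEmbedding NumberField.InfinitePlace

variable {K : Type} [Field K] [NumberField K]

/-- coordinate functions and their conjugates -/
def basicFns (K : Type) [Field K] [NumberField K] : Set (RealPoints K → ℂ) :=
  {g | ∃ w : CPlace K, g = (fun u : RealPoints K => (u : mixedSpace K).2 w) ∨
    g = (fun u : RealPoints K => (starRingEnd ℂ) ((u : mixedSpace K).2 w))}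

/-- A real linear functional on the mixed space of a totally complex field is a combination of the
basic functions. -/
lemma functional_mem [IsEmpty {w : InfinitePlace K // IsReal w}] (φ : mixedSpace K →ₗ[ℝ] ℝ) :
    (fun u : RealPoints K => ((φ (u : mixedSpace K) : ℝ) : ℂ)) ∈
      Algebra.adjoin ℂ (basicFns K) := by
  classical
  have key : ∀ x : mixedSpace K, φ x = ∑ w : CPlace K,
      ((x.2 w).re * φ (0, Pi.single w 1) + (x.2 w).im * φ (0, Pi.single w Complex.I)) := by
    intro x
    have hx : x = ∑ w : CPlace K, ((x.2 w).re • ((0, Pi.single w 1) : mixedSpace K) +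
        (x.2 w).im • ((0, Pi.single w Complex.I) : mixedSpace K)) := by
      apply Prod.ext
      · funext w
        exact isEmptyElim w
      · funext w
        rw [Prod.snd_sum]
        simp only [Prod.snd_add, Prod.smul_snd, Finset.sum_apply, Pi.add_apply, Pi.smul_apply,
          Pi.single_apply]
        rw [Finset.sum_eq_single w]
        · simp only [if_true]
          rw [Complex.real_smul, Complex.real_smul, mul_one, Complex.re_add_im]
        · intro b _ hb
          simp [Ne.symm hb]
        · intro h; exact absurd (Finset.mem_univ w) h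
    conv_lhs => rw [hx]
    rw [map_sum]
    apply Finset.sum_congr rfl
    intro w _
    rw [map_add, map_smul, map_smul, smul_eq_mul, smul_eq_mul]
  have key2 : (fun u : RealPoints K => ((φ (u : mixedSpace K) : ℝ) : ℂ)) =
      ∑ w : CPlace K, (
        (algebraMap ℂ (RealPoints K → ℂ) ((φ (0, Pi.single w 1) : ℂ) / 2 +
            (φ (0, Pi.single w Complex.I) : ℂ) / (2 * Complex.I))) *
          (fun u : RealPoints K => (u : mixedSpace K).2 w) +
        (algebraMap ℂ (RealPoints K → ℂ) ((φ (0, Pi.single w 1) : ℂ) / 2 -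
            (φ (0, Pi.single w Complex.I) : ℂ) / (2 * Complex.I))) *
          (fun u : RealPoints K => (starRingEnd ℂ) ((u : mixedSpace K).2 w))) := by
    funext u
    rw [key, Finset.sum_apply, Complex.ofReal_sum]
    apply Finset.sum_congr rfl
    intro w _
    rw [Complex.ofReal_add, Complex.ofReal_mul, Complex.ofReal_mul]
    simp only [Pi.add_apply, Pi.mul_apply, Pi.algebraMap_apply, Algebra.algebraMap_self,
      RingHom.id_apply]
    have h1 : (((u : mixedSpace K).2 w).re : ℂ) = ((u : mixedSpace K).2 w +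
        (starRingEnd ℂ) ((u : mixedSpace K).2 w)) / 2 := Complex.re_eq_add_conj _
    have h2 : (((u : mixedSpace K).2 w).im : ℂ) = ((u : mixedSpace K).2 w -
        (starRingEnd ℂ) ((u : mixedSpace K).2 w)) / (2 * Complex.I) := Complex.im_eq_sub_conj _
    rw [h1, h2]
    ring
  rw [key2]
  apply Subalgebra.sum_mem
  intro w _
  apply Subalgebra.add_mem
  · apply Subalgebra.mul_mem
    · exact Subalgebra.algebraMap_mem _ _
    · exact Algebra.subset_adjoin ⟨w, Or.inl rfl⟩
  · apply Subalgebra.mul_mem
    · exact Subalgebra.algebraMap_mem _ _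
    · exact Algebra.subset_adjoin ⟨w, Or.inr rfl⟩

/-- Polynomial functions are combinations of products of basic functions. -/
lemma poly_mem [IsEmpty {w : InfinitePlace K // IsReal w}]
    (f : MvPolynomial (Module.Free.ChooseBasisIndex ℤ (𝓞 K)) ℚ) :
    (fun u : RealPoints K => ((MvPolynomial.aeval (coord K u) f : ℝ) : ℂ)) ∈
      Algebra.adjoin ℂ (basicFns K) := by
  induction f using MvPolynomial.induction_on with
  | C a =>
    have : (fun u : RealPoints K =>
        ((MvPolynomial.aeval (coord K u) (MvPolynomial.C a : MvPolynomial _ ℚ) : ℝ) : ℂ)) =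
        algebraMap ℂ (RealPoints K → ℂ) (a : ℂ) := by
      funext u
      simp
    rw [this]
    exact Subalgebra.algebraMap_mem _ _
  | add p q hp hq =>
    have : (fun u : RealPoints K => ((MvPolynomial.aeval (coord K u) (p + q) : ℝ) : ℂ)) =
        (fun u : RealPoints K => ((MvPolynomial.aeval (coord K u) p : ℝ) : ℂ)) +
        (fun u : RealPoints K => ((MvPolynomial.aeval (coord K u) q : ℝ) : ℂ)) := by
      funext u
      simp
    rw [this]
    exact Subalgebra.add_mem _ hp hq
  | mul_X p i hp =>
    have : (fun u : RealPoints K =>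
        ((MvPolynomial.aeval (coord K u) (p * MvPolynomial.X i) : ℝ) : ℂ)) =
        (fun u : RealPoints K => ((MvPolynomial.aeval (coord K u) p : ℝ) : ℂ)) *
        (fun u : RealPoints K => (((latticeBasis K).coord i (u : mixedSpace K) : ℝ) : ℂ)) := by
      funext u
      simp [coord]
    rw [this]
    exact Subalgebra.mul_mem _ hp (functional_mem _)

/-- The properties of products of basic functions that are used. -/
def Good (s : CPlace K → Fin 3 → ℤ) (g : RealPoints K → ℂ) : Prop :=
  (∃ χ : RealPoints K →* ℂ, ∀ u, χ u = g u) ∧ ∃ n : Fin 3 → ℤ,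
    (∀ v : Fin 3 → ℝ, g (E K (fun w => ((∑ i, v i * (s w i : ℝ) : ℝ) : ℂ))) =
      ((Real.exp (∑ i, v i * (n i : ℝ)) : ℝ) : ℂ)) ∧
    ∀ (u : RealPoints K) (t : Fin 3 → ℝ), (∀ w, lg K u w = ∑ i, t i * (s w i : ℝ)) →
      ‖g u‖ = Real.exp (∑ i, t i * (n i : ℝ))

lemma good_one (s : CPlace K → Fin 3 → ℤ) : Good s (1 : RealPoints K → ℂ) := by
  refine ⟨⟨1, fun u => rfl⟩, 0, ?_, ?_⟩
  · intro v; simp
  · intro u t _; simp

lemma good_mul (s : CPlace K → Fin 3 → ℤ) (g g' : RealPoints K → ℂ) (h : Good s g)
    (h' : Good s g') : Good s (g * g') := by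
  obtain ⟨⟨χ, hχ⟩, n, h1, h2⟩ := h
  obtain ⟨⟨χ', hχ'⟩, n', h1', h2'⟩ := h'
  refine ⟨⟨χ * χ', fun u => ?_⟩, n + n', ?_, ?_⟩
  · rw [MonoidHom.mul_apply, hχ, hχ', Pi.mul_apply]
  · intro v
    rw [Pi.mul_apply, h1, h1', ← Complex.ofReal_mul, ← Real.exp_add, ← Finset.sum_add_distrib]
    congr 2
    apply Finset.sum_congr rfl
    intro i _
    rw [Pi.add_apply]
    push_cast
    ring
  · intro u t ht
    rw [Pi.mul_apply, norm_mul, h2 u t ht, h2' u t ht, ← Real.exp_add, ← Finset.sum_add_distrib]
    congr 1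
    apply Finset.sum_congr rfl
    intro i _
    rw [Pi.add_apply]
    push_cast
    ring

lemma good_basic (s : CPlace K → Fin 3 → ℤ) (g : RealPoints K → ℂ) (hg : g ∈ basicFns K) :
    Good s g := by
  obtain ⟨w, hw | hw⟩ := hg
  · subst hw
    refine ⟨⟨⟨⟨fun u : RealPoints K => (u : mixedSpace K).2 w, rfl⟩, fun a b => rfl⟩,
      fun u => rfl⟩, s w, ?_, ?_⟩
    · intro v
      simp only
      rw [E_snd, Complex.ofReal_exp]
    · intro u t ht
      simp only
      rw [← exp_lg, ht w]
  · subst hw
    refine ⟨⟨⟨⟨fun u : RealPoints K => (starRingEnd ℂ) ((u : mixedSpace K).2 w), ?_⟩, ?_⟩,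
      fun u => rfl⟩,
      s w, ?_, ?_⟩
    · show (starRingEnd ℂ) (1 : ℂ) = 1
      exact map_one _
    · intro a b
      show (starRingEnd ℂ) ((a : mixedSpace K).2 w * (b : mixedSpace K).2 w) = _
      exact map_mul _ _ _
    · intro v
      simp only
      rw [E_snd, ← Complex.ofReal_exp, Complex.conj_ofReal]
    · intro u t ht
      simp only
      rw [Complex.norm_conj, ← exp_lg, ht w]

lemma good_closure (s : CPlace K → Fin 3 → ℤ) (g : RealPoints K → ℂ)
    (hg : g ∈ Submonoid.closure (basicFns K)) : Good s g := by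
  induction hg using Submonoid.closure_induction with
  | mem x hx => exact good_basic s x hx
  | one => exact good_one s
  | mul x y _ _ hx hy => exact good_mul s x y hx hy

/-- The Artin step: if `B` is rational algebraic, contains a point `b` with logarithm `t · s`, and
`v` is orthogonal to all integer vectors orthogonal to `t`, then `exp (v · s) ∈ B`. -/
theorem mem_of_orthogonal [IsEmpty {w : InfinitePlace K // IsReal w}]
    (s : CPlace K → Fin 3 → ℤ) (B : Subgroup (RealPoints K))
    (hB : IsRationalAlgebraic K B) (b : RealPoints K) (hb : b ∈ B) (t : Fin 3 → ℝ)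
    (ht : ∀ w, lg K b w = ∑ i, t i * (s w i : ℝ)) (v : Fin 3 → ℝ)
    (hv : ∀ n : Fin 3 → ℤ, ∑ i, t i * (n i : ℝ) = 0 → ∑ i, v i * (n i : ℝ) = 0) :
    E K (fun w => ((∑ i, v i * (s w i : ℝ) : ℝ) : ℂ)) ∈ B := by
  classical
  obtain ⟨S, hS⟩ := hB
  rw [hS]
  intro f hf
  have hmem := poly_mem (K := K) f
  rw [← Subalgebra.mem_toSubmodule, Algebra.adjoin_eq_span] at hmem
  rw [Finsupp.mem_span_iff_linearCombination] at hmem
  obtain ⟨c, hc⟩ := hmem
  -- characters
  have hgood : ∀ g : Submonoid.closure (basicFns K), Good s (g : RealPoints K → ℂ) :=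
    fun g => good_closure s _ g.2
  choose χ hχ using fun g => (hgood g).1
  choose N hN1 hN2 using fun g => (hgood g).2
  have hval : ∀ u : RealPoints K, ((MvPolynomial.aeval (coord K u) f : ℝ) : ℂ) =
      ∑ g ∈ c.support, c g * χ g u := by
    intro u
    have h1 := congrFun hc u
    rw [← h1, Finsupp.linearCombination_apply, Finsupp.sum, Finset.sum_apply]
    apply Finset.sum_congr rfl
    intro g _
    rw [Pi.smul_apply, smul_eq_mul, hχ g u]
  have hzero := artin_extend B c.support c χ (fun b' hb' => by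
    rw [← hval, (hS b').mp hb' f hf]; simp)
    (E K (fun w => ((∑ i, v i * (s w i : ℝ) : ℝ) : ℂ))) (by
    intro g _ g' _ hgg
    have h1 := hgg b hb
    have h2 : Real.exp (∑ i, t i * (N g i : ℝ)) = Real.exp (∑ i, t i * (N g' i : ℝ)) := by
      rw [← hN2 g b t ht, ← hN2 g' b t ht, ← hχ g b, ← hχ g' b, h1]
    have h3 := Real.exp_injective h2
    have h4 : ∑ i, t i * (((N g - N g') i : ℤ) : ℝ) = 0 := by
      have : ∑ i, t i * (((N g - N g') i : ℤ) : ℝ) =
          ∑ i, t i * (N g i : ℝ) - ∑ i, t i * (N g' i : ℝ) := by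
        rw [← Finset.sum_sub_distrib]
        apply Finset.sum_congr rfl
        intro i _
        rw [Pi.sub_apply]; push_cast; ring
      rw [this, h3, sub_self]
    have h5 := hv _ h4
    have h6 : ∑ i, v i * (N g i : ℝ) = ∑ i, v i * (N g' i : ℝ) := by
      have : ∑ i, v i * (((N g - N g') i : ℤ) : ℝ) =
          ∑ i, v i * (N g i : ℝ) - ∑ i, v i * (N g' i : ℝ) := by
        rw [← Finset.sum_sub_distrib]
        apply Finset.sum_congr rfl
        intro i _
        rw [Pi.sub_apply]; push_cast; ring
      rw [this] at h5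
      linarith
    rw [hχ, hχ, hN1, hN1, h6])
  rw [← hval] at hzero
  exact_mod_cast hzero

end Pool.Agent.H492R2.Tor
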