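import Mathlib
import Pool.Agent.H492R2.Tor.Core2

set_option autoImplicit false
set_option linter.unusedSectionVars false

namespace Pool.Agent.H492R2.Tor

open NumberField NumberField.mixedEmbedding NumberField.InfinitePlace

/-- A finite family that is independent over `ℤ` but dependent over `ℝ` spans a non-discrete
group: there are arbitrarily small nonzero integer combinations. -/
theorem small_combination {V : Type*} [NormedAddCommGroup V] [NormedSpace ℝ V]
    [FiniteDimensional ℝ V] {ι : Type*} [Fintype ι] (v : ι → V) (hZ : LinearIndependent ℤ v)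
    (hR : ¬ LinearIndependent ℝ v) (ε : ℝ) (hε : 0 < ε) :
    ∃ z ∈ Submodule.span ℤ (Set.range v), z ≠ 0 ∧ ‖z‖ < ε := by
  by_contra hcon
  push Not at hcon
  have hdisc : DiscreteTopology (Submodule.span ℤ (Set.range v)) := by
    apply discreteTopology_of_isOpen_singleton_zero
    rw [Metric.isOpen_singleton_iff]
    refine ⟨ε, hε, ?_⟩
    intro y hy
    by_contra hne
    have h1 := hcon y y.2 (fun h => hne (Subtype.ext h))
    rw [dist_zero_right] at hy
    exact absurd hy (not_lt.mpr h1)
  have h1 := Real.finrank_eq_int_finrank_of_discrete hdisc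
  have h2 : Set.finrank ℤ (Set.range v) = Fintype.card ι := finrank_span_eq_card hZ
  rw [h2] at h1
  exact hR (linearIndependent_iff_card_eq_finrank_span.mpr h1.symm)

variable {K : Type} [Field K] [NumberField K]

/-- The data used in the counterexample. -/
structure Data (K : Type) [Field K] [NumberField K] where
  s : CPlace K → Fin 3 → ℤ
  lam : Fin 3 → ℝ
  x : Fin 3 → Kˣ
  T : Fin 3 → Fin 3 → ℝ
  mu : Fin 3 → ℝ
  hs : ∀ t : Fin 3 → ℝ, (∀ w, ∑ i, t i * (s w i : ℝ) = 0) → t = 0
  hlam : ∀ q : Fin 3 → ℚ, ∑ i, (q i : ℝ) * lam i = 0 → q = 0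
  hT : ∀ n : Fin 3 → ℤ, (∀ i, ∑ j, (n j : ℝ) * T j i = 0) → n = 0
  hTl : ∀ j, ∑ i, T j i * lam i = 0
  hmu : mu ≠ 0
  hmuT : ∀ i, ∑ j, mu j * T j i = 0
  hx : ∀ j (w : CPlace K), Real.log ‖w.1.embedding (x j : K)‖ = ∑ i, T j i * (s w i : ℝ)

open scoped Classical

namespace Data

variable (D : Data K)

/-- The finitely generated group. -/
def L : Subgroup Kˣ := Subgroup.closure (Set.range D.x)

lemma L_fg : D.L.FG := ⟨Finset.univ.image D.x, by
  rw [L, Finset.coe_image, Finset.coe_univ, Set.image_univ]⟩

lemma lg_inclusion (j : Fin 3) (w : CPlace K) :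
    lg K (inclusion K (D.x j)) w = ∑ i, D.T j i * (D.s w i : ℝ) := D.hx j w

/-- The whole closure has logarithms in the plane. -/
lemma closure_le : closureIn K D.L ≤ planeGroup D.s D.lam := by
  apply Subgroup.topologicalClosure_minimal _ _ (planeGroup_closed _ _)
  rw [L, MonoidHom.map_closure, Subgroup.closure_le]
  rintro _ ⟨_, ⟨j, rfl⟩, rfl⟩
  rw [SetLike.mem_coe, mem_planeGroup]
  exact ⟨D.T j, D.hTl j, fun w => D.lg_inclusion j w⟩

/-- The closed additive group of logarithms of points of the closure. -/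
noncomputable def Gam : AddSubgroup (CPlace K → ℂ) where
  carrier := {z | E K z ∈ closureIn K D.L}
  add_mem' := by
    intro a b ha hb
    show E K (a + b) ∈ closureIn K D.L
    rw [E_add]
    exact Subgroup.mul_mem _ ha hb
  zero_mem' := by
    show E K 0 ∈ closureIn K D.L
    rw [E_zero]
    exact Subgroup.one_mem _
  neg_mem' := by
    intro a ha
    show E K (-a) ∈ closureIn K D.L
    rw [E_neg]
    exact Subgroup.inv_mem _ ha

lemma Gam_closed : IsClosed (D.Gam : Set (CPlace K → ℂ)) := by
  have h : IsClosed ((closureIn K D.L : Subgroup (RealPoints K)) : Set (RealPoints K)) :=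
    Subgroup.isClosed_topologicalClosure _
  exact h.preimage (E_continuous K)

/-- logarithms of the generators -/
noncomputable def zz (j : Fin 3) : CPlace K → ℂ := fun w => Complex.log (w.1.embedding (D.x j : K))

/-- periods -/
noncomputable def cc (w : CPlace K) : CPlace K → ℂ :=
  Pi.single w (2 * Real.pi * Complex.I)

lemma zz_re (j : Fin 3) (w : CPlace K) : (D.zz j w).re = ∑ i, D.T j i * (D.s w i : ℝ) := by
  rw [← D.hx j w, zz, Complex.log_re]

lemma E_zz [IsEmpty {w : InfinitePlace K // IsReal w}] (j : Fin 3) :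
    E K (D.zz j) = inclusion K (D.x j) := by
  apply Units.ext
  apply Prod.ext
  · funext w
    exact isEmptyElim w
  · funext w
    show Complex.exp (Complex.log (w.1.embedding (D.x j : K))) = w.1.embedding (D.x j : K)
    apply Complex.exp_log
    rw [Ne, map_eq_zero]
    exact (D.x j).ne_zero

lemma E_cc (w : CPlace K) : E K (cc w) = 1 := by
  apply Units.ext
  apply Prod.ext
  · rfl
  · funext w'
    show Complex.exp (cc w w') = 1
    rw [cc, Pi.single_apply]
    split_ifs
    · exact Complex.exp_two_pi_mul_I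
    · exact Complex.exp_zero

/-- the family of lifts -/
noncomputable def vv : Fin 3 ⊕ CPlace K → (CPlace K → ℂ) :=
  Sum.elim D.zz cc

lemma vv_mem [IsEmpty {w : InfinitePlace K // IsReal w}]
    (i : Fin 3 ⊕ CPlace K) : D.vv i ∈ D.Gam := by
  rcases i with j | w
  · show E K (D.zz j) ∈ closureIn K D.L
    rw [E_zz]
    apply Subgroup.le_topologicalClosure
    exact Subgroup.mem_map_of_mem _ (Subgroup.subset_closure ⟨j, rfl⟩)
  · show E K (cc w) ∈ closureIn K D.L
    rw [E_cc]
    exact Subgroup.one_mem _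

lemma cc_re (w w' : CPlace K) : (cc w w').re = 0 := by
  rw [cc, Pi.single_apply]
  split_ifs
  · simp
  · simp

lemma cc_im (w w' : CPlace K) :
    (cc w w').im = if w' = w then 2 * Real.pi else 0 := by
  rw [cc, Pi.single_apply]
  split_ifs
  · simp
  · simp

/-- real part of an integer combination -/
lemma comb_re (g : Fin 3 ⊕ CPlace K → ℤ) (w : CPlace K) :
    ((∑ i, g i • D.vv i) w).re = ∑ i, (∑ j, (g (Sum.inl j) : ℝ) * D.T j i) * (D.s w i : ℝ) := by
  rw [Fintype.sum_sum_type, Pi.add_apply, Complex.add_re, Finset.sum_apply, Finset.sum_apply,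
    Complex.re_sum, Complex.re_sum]
  have h2 : ∑ w' : CPlace K, ((g (Sum.inr w') • D.vv (Sum.inr w')) w).re = 0 := by
    apply Finset.sum_eq_zero
    intro w' _
    show ((g (Sum.inr w') • cc w') w).re = 0
    rw [Pi.smul_apply, zsmul_eq_mul, Complex.mul_re, cc_re, Complex.intCast_im]
    ring
  rw [h2, add_zero]
  have h3 : ∀ j, ((g (Sum.inl j) • D.vv (Sum.inl j)) w).re =
      ∑ i, (g (Sum.inl j) : ℝ) * D.T j i * (D.s w i : ℝ) := by
    intro j
    show ((g (Sum.inl j) • D.zz j) w).re = _
    rw [Pi.smul_apply, zsmul_eq_mul, Complex.mul_re, Complex.intCast_im, Complex.intCast_re,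
      zero_mul, sub_zero, zz_re, Finset.mul_sum]
    apply Finset.sum_congr rfl
    intro i _
    ring
  rw [Finset.sum_congr rfl (fun j _ => h3 j), Finset.sum_comm]
  apply Finset.sum_congr rfl
  intro i _
  rw [Finset.sum_mul]

lemma comb_im (g : Fin 3 ⊕ CPlace K → ℤ)
    (h0 : ∀ j, g (Sum.inl j) = 0) (w : CPlace K) :
    ((∑ i, g i • D.vv i) w).im = (g (Sum.inr w) : ℝ) * (2 * Real.pi) := by
  rw [Fintype.sum_sum_type, Pi.add_apply, Complex.add_im, Finset.sum_apply, Finset.sum_apply,
    Complex.im_sum, Complex.im_sum]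
  have h1 : ∑ j, ((g (Sum.inl j) • D.vv (Sum.inl j)) w).im = 0 := by
    apply Finset.sum_eq_zero
    intro j _
    rw [h0 j, zero_smul]
    rfl
  rw [h1, zero_add]
  have h3 : ∀ w' : CPlace K, ((g (Sum.inr w') • D.vv (Sum.inr w')) w).im =
      if w = w' then (g (Sum.inr w') : ℝ) * (2 * Real.pi) else 0 := by
    intro w'
    show ((g (Sum.inr w') • cc w') w).im = _
    rw [Pi.smul_apply, zsmul_eq_mul, Complex.mul_im, cc_im, Complex.intCast_re,
      Complex.intCast_im, zero_mul, add_zero]
    split_ifs
    · rfl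
    · ring
  rw [Finset.sum_congr rfl (fun w' _ => h3 w'), Finset.sum_ite_eq]
  simp

lemma comb_zero (g : Fin 3 ⊕ CPlace K → ℤ)
    (h : ∀ w, ((∑ i, g i • D.vv i) w).re = 0) : ∀ j, g (Sum.inl j) = 0 := by
  have h1 := D.hs (fun i => ∑ j, (g (Sum.inl j) : ℝ) * D.T j i) (fun w => by
    rw [← D.comb_re g w]; exact h w)
  have h2 := D.hT (fun j => g (Sum.inl j)) (fun i => congrFun h1 i)
  exact fun j => congrFun h2 j

lemma indep_int : LinearIndependent ℤ D.vv := by
  rw [Fintype.linearIndependent_iff]
  intro g hg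
  have h0 := D.comb_zero g (fun w => by rw [hg]; rfl)
  intro i
  rcases i with j | w
  · exact h0 j
  · have h1 := D.comb_im g h0 w
    rw [hg] at h1
    have h2 : (g (Sum.inr w) : ℝ) * (2 * Real.pi) = 0 := by rw [← h1]; rfl
    have h3 : (g (Sum.inr w) : ℝ) = 0 := by
      rcases mul_eq_zero.mp h2 with h | h
      · exact h
      · exact absurd h (by positivity)
    exact_mod_cast h3

lemma dep_real : ¬ LinearIndependent ℝ D.vv := by
  intro hLI
  rw [Fintype.linearIndependent_iff] at hLI
  -- imaginary part of the real combination of the `zz`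
  let y : CPlace K → ℝ := fun w => ∑ j, D.mu j * (D.zz j w).im
  have h := hLI (Sum.elim D.mu (fun w => - y w / (2 * Real.pi))) (by
    funext w
    rw [Fintype.sum_sum_type]
    simp only [Sum.elim_inl, Sum.elim_inr]
    rw [Pi.add_apply, Finset.sum_apply, Finset.sum_apply]
    have h1 : ∑ w' : CPlace K, ((- y w' / (2 * Real.pi)) • D.vv (Sum.inr w')) w =
        - (y w : ℂ) * Complex.I := by
      rw [Finset.sum_eq_single w]
      · show ((- y w / (2 * Real.pi)) • cc w) w = _
        rw [Pi.smul_apply, cc, Pi.single_eq_same, Complex.real_smul]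
        push_cast
        have : (Real.pi : ℂ) ≠ 0 := by exact_mod_cast Real.pi_ne_zero
        field_simp
      · intro b _ hb
        show ((- y b / (2 * Real.pi)) • cc b) w = 0
        rw [Pi.smul_apply, cc, Pi.single_eq_of_ne (Ne.symm hb), smul_zero]
      · intro h; exact absurd (Finset.mem_univ w) h
    have h2 : ∑ j, (D.mu j • D.vv (Sum.inl j)) w = (y w : ℂ) * Complex.I := by
      apply Complex.ext
      · rw [Complex.re_sum]
        have : ∀ j, ((D.mu j • D.vv (Sum.inl j)) w).re =
            ∑ i, D.mu j * D.T j i * (D.s w i : ℝ) := by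
          intro j
          show ((D.mu j • D.zz j) w).re = _
          rw [Pi.smul_apply, Complex.real_smul, Complex.re_ofReal_mul, zz_re, Finset.mul_sum]
          apply Finset.sum_congr rfl
          intro i _
          ring
        rw [Finset.sum_congr rfl (fun j _ => this j), Finset.sum_comm]
        have h3 : ∀ i, ∑ j, D.mu j * D.T j i * (D.s w i : ℝ) = 0 := by
          intro i
          rw [← Finset.sum_mul, D.hmuT i, zero_mul]
        rw [Finset.sum_congr rfl (fun i _ => h3 i)]
        simp
      · rw [Complex.im_sum]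
        have : ∀ j, ((D.mu j • D.vv (Sum.inl j)) w).im = D.mu j * (D.zz j w).im := by
          intro j
          show ((D.mu j • D.zz j) w).im = _
          rw [Pi.smul_apply, Complex.real_smul, Complex.im_ofReal_mul]
        rw [Finset.sum_congr rfl (fun j _ => this j)]
        simp [y]
    rw [h1, h2, Pi.zero_apply]
    ring)
  apply D.hmu
  funext j
  have := h (Sum.inl j)
  simpa using this

/-- There is a point of the identity component whose logarithm is a nonzero vector. -/
theorem exists_point [IsEmpty {w : InfinitePlace K // IsReal w}] :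
    ∃ b ∈ identityComponent K D.L, ∃ t : Fin 3 → ℝ, t ≠ 0 ∧
      ∀ w, lg K b w = ∑ i, t i * (D.s w i : ℝ) := by
  classical
  obtain ⟨ε, hε, hlines⟩ := small_mem_lines D.Gam D.Gam_closed
  obtain ⟨z, hz, hz0, hzn⟩ := small_combination D.vv D.indep_int D.dep_real (min ε 1)
    (lt_min hε one_pos)
  have hzG : z ∈ D.Gam := by
    have hle : Submodule.span ℤ (Set.range D.vv) ≤ D.Gam.toIntSubmodule := by
      rw [Submodule.span_le]
      rintro _ ⟨i, rfl⟩
      exact D.vv_mem i
    exact hle hz
  have hline := hlines z hzG (lt_of_lt_of_le hzn (min_le_left _ _))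
  -- integer coefficients
  obtain ⟨g, hg⟩ := (Submodule.mem_span_range_iff_exists_fun ℤ).mp hz
  set t : Fin 3 → ℝ := fun i => ∑ j, (g (Sum.inl j) : ℝ) * D.T j i with ht
  refine ⟨E K z, ?_, t, ?_, ?_⟩
  · -- connectedness
    have hmem : ∀ r : ℝ, E K (r • z) ∈ closureIn K D.L := fun r => hline r
    let c : ℝ → closureIn K D.L := fun r => ⟨E K (r • z), hmem r⟩
    have hc : Continuous c := by
      apply Continuous.subtype_mk
      exact (E_continuous K).comp (continuous_id.smul continuous_const)
    have hconn : IsPreconnected (Set.range c) := isPreconnected_range hc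
    have h1 : (1 : closureIn K D.L) ∈ Set.range c := by
      refine ⟨0, ?_⟩
      apply Subtype.ext
      show E K ((0:ℝ) • z) = 1
      rw [zero_smul, E_zero]
    have h2 : c 1 ∈ connectedComponent (1 : closureIn K D.L) :=
      hconn.subset_connectedComponent h1 ⟨1, rfl⟩
    refine ⟨c 1, h2, ?_⟩
    show E K ((1:ℝ) • z) = E K z
    rw [one_smul]
  · intro h0
    have hre : ∀ w, ((∑ i, g i • D.vv i) w).re = 0 := by
      intro w
      rw [D.comb_re g w]
      apply Finset.sum_eq_zero
      intro i _
      have := congrFun h0 i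
      rw [ht] at this
      simp only at this
      rw [this]
      simp
    have hg0 := D.comb_zero g hre
    apply hz0
    rw [← hg]
    funext w
    apply Complex.ext
    · rw [hre w]; rfl
    · rw [D.comb_im g hg0 w]
      have hn : ‖z w‖ < 1 :=
        lt_of_le_of_lt (norm_le_pi_norm z w) (lt_of_lt_of_le hzn (min_le_right _ _))
      rw [← hg] at hn
      have him : |((∑ i, g i • D.vv i) w).im| < 1 := lt_of_le_of_lt (Complex.abs_im_le_norm _) hn
      rw [D.comb_im g hg0 w, abs_mul, abs_of_pos (by positivity : (0:ℝ) < 2 * Real.pi)] at him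
      have hpi := Real.pi_gt_three
      have hlt : |(g (Sum.inr w) : ℝ)| < 1 := by
        by_contra hge
        push Not at hge
        nlinarith
      have : g (Sum.inr w) = 0 := by
        have h3 : |g (Sum.inr w)| < 1 := by exact_mod_cast hlt
        exact Int.abs_lt_one_iff.mp h3
      rw [this]
      simp
  · intro w
    rw [lg_E, ← hg, D.comb_re g w]


include D in
theorem not_expected [IsEmpty {w : InfinitePlace K // IsReal w}] : ¬ ExpectedAnswerReal K := by
  classical
  intro h
  obtain ⟨B, hB, hle, hidx⟩ := h D.L D.L_fg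
  obtain ⟨b, hb, t, ht0, ht⟩ := D.exists_point
  -- a rational functional vanishing on the integer vectors orthogonal to `t`
  let P : Submodule ℚ (Fin 3 → ℚ) := {
    carrier := {q | ∑ i, t i * (q i : ℝ) = 0}
    add_mem' := by
      intro a c ha hc
      show ∑ i, t i * ((a + c) i : ℝ) = 0
      have : ∑ i, t i * (((a + c) i : ℚ) : ℝ) = ∑ i, t i * (a i : ℝ) + ∑ i, t i * (c i : ℝ) := by
        rw [← Finset.sum_add_distrib]
        apply Finset.sum_congr rfl
        intro i _
        rw [Pi.add_apply]; push_cast; ring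
      rw [this]
      have e1 : ∑ i, t i * (a i : ℝ) = 0 := ha
      have e2 : ∑ i, t i * (c i : ℝ) = 0 := hc
      rw [e1, e2, add_zero]
    zero_mem' := by
      show ∑ i, t i * (((0 : Fin 3 → ℚ) i : ℚ) : ℝ) = 0
      simp
    smul_mem' := by
      intro r a ha
      show ∑ i, t i * (((r • a) i : ℚ) : ℝ) = 0
      have : ∑ i, t i * (((r • a) i : ℚ) : ℝ) = (r : ℝ) * ∑ i, t i * (a i : ℝ) := by
        rw [Finset.mul_sum]
        apply Finset.sum_congr rfl
        intro i _
        rw [Pi.smul_apply, smul_eq_mul]; push_cast; ring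
      have e1 : ∑ i, t i * (a i : ℝ) = 0 := ha
      rw [this, e1, mul_zero] }
  have hPtop : P < ⊤ := by
    rw [lt_top_iff_ne_top]
    intro htop
    apply ht0
    funext i
    have hmem : (Pi.single i (1:ℚ) : Fin 3 → ℚ) ∈ P := by rw [htop]; trivial
    have h1 : ∑ k, t k * (((Pi.single i (1:ℚ) : Fin 3 → ℚ) k : ℚ) : ℝ) = 0 := hmem
    rw [Finset.sum_eq_single i] at h1
    · simpa using h1
    · intro k _ hk
      rw [Pi.single_eq_of_ne hk]
      simp
    · intro hk; exact absurd (Finset.mem_univ i) hk
  obtain ⟨f, hf0, hfP⟩ := Submodule.exists_le_ker_of_lt_top P hPtop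
  set q : Fin 3 → ℚ := fun i => f (Pi.single i 1) with hq
  have hfq : ∀ n : Fin 3 → ℚ, f n = ∑ i, q i * n i := by
    intro n
    rw [LinearMap.pi_apply_eq_sum_univ f n]
    apply Finset.sum_congr rfl
    intro i _
    rw [smul_eq_mul, mul_comm, hq]
    congr 1
    congr 1
    funext k
    simp [Pi.single_apply, eq_comm]
  have hqne : q ≠ 0 := by
    intro h0
    apply hf0
    apply LinearMap.ext
    intro n
    rw [hfq, h0]
    simp
  -- the point exp (q · s)
  have hU := mem_of_orthogonal D.s B hB b (hle hb) t ht (fun i => (q i : ℝ)) (by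
    intro n hn
    have h1 : (fun i => (n i : ℚ)) ∈ P := by
      show ∑ i, t i * (((n i : ℚ)) : ℝ) = 0
      rw [← hn]
      apply Finset.sum_congr rfl
      intro i _
      push_cast
      rfl
    have h2 := hfP h1
    rw [LinearMap.mem_ker, hfq] at h2
    have h3 : ((∑ i, q i * (n i : ℚ) : ℚ) : ℝ) = 0 := by rw [h2]; simp
    push_cast at h3
    exact h3)
  obtain ⟨m, hm, -, hpow⟩ := Subgroup.exists_pow_mem_of_relIndex_ne_zero hidx hU
  -- the power lies in the closure, so its logarithm is in the plane
  have hcl : (E K (fun w => ((∑ i, (q i : ℝ) * (D.s w i : ℝ) : ℝ) : ℂ))) ^ m ∈ closureIn K D.L := by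
    have h1 := hpow.1
    obtain ⟨c, _, hc⟩ := h1
    rw [← hc]
    exact c.2
  obtain ⟨t', ht'l, ht'⟩ := (mem_planeGroup D.s D.lam _).mp (D.closure_le hcl)
  have heq : (fun i => (m : ℝ) * (q i : ℝ) - t' i) = 0 := by
    apply D.hs
    intro w
    have h1 := ht' w
    rw [lg_pow, Pi.smul_apply, lg_E, Complex.ofReal_re, smul_eq_mul, Finset.mul_sum] at h1
    have : ∑ i, ((m : ℝ) * (q i : ℝ) - t' i) * (D.s w i : ℝ) =
        ∑ i, (m : ℝ) * ((q i : ℝ) * (D.s w i : ℝ)) - ∑ i, t' i * (D.s w i : ℝ) := by
      rw [← Finset.sum_sub_distrib]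
      apply Finset.sum_congr rfl
      intro i _
      ring
    rw [this, h1, sub_self]
  have hfin : ∑ i, (q i : ℝ) * D.lam i = 0 := by
    have h1 : ∀ i, t' i = (m : ℝ) * (q i : ℝ) := by
      intro i
      have := congrFun heq i
      simp only [Pi.zero_apply] at this
      linarith
    have h2 : (m : ℝ) * ∑ i, (q i : ℝ) * D.lam i = 0 := by
      rw [Finset.mul_sum, ← ht'l]
      apply Finset.sum_congr rfl
      intro i _
      rw [h1 i]; ring
    rcases mul_eq_zero.mp h2 with h3 | h3
    · have : (0:ℝ) < m := by exact_mod_cast hm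
      exact absurd h3 this.ne'
    · exact h3
  exact hqne (D.hlam q hfin)

end Data

end Pool.Agent.H492R2.Tor
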