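import Mathlib

set_option autoImplicit false

/-!
# The quartic `X ^ 4 + X + 1`
-/

namespace Pool.Agent.H492R2.Tor

open Polynomial

/-! ### Complex roots -/

lemma quartic_no_real (x : ℝ) : x ^ 4 + x + 1 ≠ 0 := by
  nlinarith [sq_nonneg (x ^ 2 - 1 / 2), sq_nonneg (x + 1 / 2)]

lemma im_ne {z : ℂ} (hz : z ^ 4 + z + 1 = 0) : z.im ≠ 0 := by
  intro h
  have hz' : z = (z.re : ℂ) := by apply Complex.ext <;> simp [h]
  rw [hz'] at hz
  have h1 : z.re ^ 4 + z.re + 1 = 0 := by exact_mod_cast hz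
  exact quartic_no_real _ h1

lemma conj_root {z : ℂ} (hz : z ^ 4 + z + 1 = 0) :
    (starRingEnd ℂ z) ^ 4 + (starRingEnd ℂ z) + 1 = 0 := by
  have := congrArg (starRingEnd ℂ) hz
  simpa using this

lemma root_rel {z : ℂ} (hz : z ^ 4 + z + 1 = 0) :
    4 * z.re ^ 3 - 4 * z.re * z.im ^ 2 + 1 = 0 ∧
    (z.re ^ 2 + z.im ^ 2) * (3 * z.re ^ 2 - z.im ^ 2) = 1 := by
  have him := im_ne hz
  have hre : (z ^ 4 + z + 1).re = 0 := by rw [hz]; rfl
  have hi : (z ^ 4 + z + 1).im = 0 := by rw [hz]; rfl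
  have e : z ^ 4 + z + 1 = z * z * z * z + z + 1 := by ring
  rw [e] at hre hi
  simp only [Complex.add_re, Complex.mul_re, Complex.add_im, Complex.mul_im, Complex.one_re,
    Complex.one_im] at hre hi
  have h1 : 4 * z.re ^ 3 - 4 * z.re * z.im ^ 2 + 1 = 0 := by
    have : z.im * (4 * z.re ^ 3 - 4 * z.re * z.im ^ 2 + 1) = 0 := by linear_combination hi
    rcases mul_eq_zero.mp this with h | h
    · exact absurd h him
    · exact h
  refine ⟨h1, ?_⟩
  linear_combination (-1) * hre + z.re * h1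

/-- Two roots which are neither equal nor conjugate. -/
lemma pair_rel {z z' : ℂ} (hz : z ^ 4 + z + 1 = 0) (hz' : z' ^ 4 + z' + 1 = 0) (h1 : z' ≠ z)
    (h2 : z' ≠ starRingEnd ℂ z) :
    z'.re = - z.re ∧ z'.re ^ 2 + z'.im ^ 2 = 3 * z.re ^ 2 - z.im ^ 2 := by
  obtain ⟨r1, r2⟩ := root_rel hz
  have him' := im_ne hz'
  have c1 : (4 : ℂ) * (z.re : ℂ) ^ 3 - 4 * (z.re : ℂ) * (z.im : ℂ) ^ 2 + 1 = 0 := by
    exact_mod_cast r1
  have c2 : ((z.re : ℂ) ^ 2 + (z.im : ℂ) ^ 2) * (3 * (z.re : ℂ) ^ 2 - (z.im : ℂ) ^ 2) = 1 := by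
    exact_mod_cast r2
  have hzz : (z' - z) * (z' - starRingEnd ℂ z) =
      z' ^ 2 - 2 * (z.re : ℂ) * z' + ((z.re : ℂ) ^ 2 + (z.im : ℂ) ^ 2) := by
    have e1 : starRingEnd ℂ z = (z.re : ℂ) - (z.im : ℂ) * Complex.I := by
      apply Complex.ext <;> simp
    have e2 : z = (z.re : ℂ) + (z.im : ℂ) * Complex.I := (Complex.re_add_im z).symm
    rw [e1]
    generalize (z.re : ℂ) = A at *
    generalize (z.im : ℂ) = B at *
    rw [e2]
    linear_combination (-B ^ 2) * Complex.I_sq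
  have hfac : (z' ^ 2 - 2 * (z.re : ℂ) * z' + ((z.re : ℂ) ^ 2 + (z.im : ℂ) ^ 2)) *
      (z' ^ 2 + 2 * (z.re : ℂ) * z' + (3 * (z.re : ℂ) ^ 2 - (z.im : ℂ) ^ 2)) = 0 := by
    linear_combination hz' - z' * c1 + c2
  have hne : z' ^ 2 - 2 * (z.re : ℂ) * z' + ((z.re : ℂ) ^ 2 + (z.im : ℂ) ^ 2) ≠ 0 := by
    rw [← hzz]
    exact mul_ne_zero (sub_ne_zero.mpr h1) (sub_ne_zero.mpr h2)
  have hq : z' ^ 2 + 2 * (z.re : ℂ) * z' + (3 * (z.re : ℂ) ^ 2 - (z.im : ℂ) ^ 2) = 0 := by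
    rcases mul_eq_zero.mp hfac with h | h
    · exact absurd h hne
    · exact h
  have e : z' ^ 2 + 2 * (z.re : ℂ) * z' + (3 * (z.re : ℂ) ^ 2 - (z.im : ℂ) ^ 2) =
      z' * z' + ((2 * z.re : ℝ) : ℂ) * z' + ((3 * z.re ^ 2 - z.im ^ 2 : ℝ) : ℂ) := by
    push_cast; ring
  rw [e] at hq
  have hre := congrArg Complex.re hq
  have hi := congrArg Complex.im hq
  simp only [Complex.add_re, Complex.mul_re, Complex.add_im, Complex.mul_im, Complex.zero_re,
    Complex.zero_im, Complex.ofReal_re, Complex.ofReal_im] at hre hi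
  have h3 : z'.re = - z.re := by
    have : z'.im * (2 * (z'.re + z.re)) = 0 := by linear_combination hi
    rcases mul_eq_zero.mp this with h | h
    · exact absurd h him'
    · linarith
  refine ⟨h3, ?_⟩
  rw [h3] at hre ⊢
  linear_combination (-1) * hre

lemma norm_sub_sq (z : ℂ) (x : ℝ) : ‖z - (x : ℂ)‖ ^ 2 = (z.re - x) ^ 2 + z.im ^ 2 := by
  rw [← Complex.normSq_eq_norm_sq, Complex.normSq_apply]
  simp
  ring

lemma norm_mul_norm {z z' : ℂ} (hz : z ^ 4 + z + 1 = 0) (hz' : z' ^ 4 + z' + 1 = 0) (h1 : z' ≠ z)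
    (h2 : z' ≠ starRingEnd ℂ z) (x : ℝ) :
    ‖z - (x : ℂ)‖ ^ 2 * ‖z' - (x : ℂ)‖ ^ 2 = x ^ 4 + x + 1 := by
  obtain ⟨r1, r2⟩ := root_rel hz
  obtain ⟨h3, h4⟩ := pair_rel hz hz' h1 h2
  rw [norm_sub_sq, norm_sub_sq]
  have e : (z'.re - x) ^ 2 + z'.im ^ 2 = x ^ 2 + 2 * z.re * x + (3 * z.re ^ 2 - z.im ^ 2) := by
    linear_combination h4 - 2 * x * h3
  rw [e]
  linear_combination r2 - x * r1

/-- The logarithmic functions. -/
noncomputable def ell (x : ℝ) (z : ℂ) : ℝ := 4 * Real.log ‖z - (x : ℂ)‖ - Real.log (x ^ 4 + x + 1)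

lemma ell_conj (x : ℝ) (z : ℂ) : ell x (starRingEnd ℂ z) = ell x z := by
  unfold ell
  have : ‖starRingEnd ℂ z - (x : ℂ)‖ = ‖z - (x : ℂ)‖ := by
    rw [← Complex.norm_conj (z - (x : ℂ))]
    congr 1
    simp
  rw [this]

lemma root_sub_ne {z : ℂ} (hz : z ^ 4 + z + 1 = 0) (x : ℝ) : ‖z - (x : ℂ)‖ ≠ 0 := by
  rw [norm_ne_zero_iff, sub_ne_zero]
  intro h
  have := im_ne hz
  rw [h] at this
  simp at this

lemma ell_neg {z z' : ℂ} (hz : z ^ 4 + z + 1 = 0) (hz' : z' ^ 4 + z' + 1 = 0) (h1 : z' ≠ z)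
    (h2 : z' ≠ starRingEnd ℂ z) (x : ℝ) : ell x z' = - ell x z := by
  have h := norm_mul_norm hz hz' h1 h2 x
  have e : Real.log (x ^ 4 + x + 1) = 2 * Real.log ‖z - (x : ℂ)‖ + 2 * Real.log ‖z' - (x : ℂ)‖ := by
    rw [← h, Real.log_mul (pow_ne_zero _ (root_sub_ne hz x)) (pow_ne_zero _ (root_sub_ne hz' x)),
      Real.log_pow, Real.log_pow]
    push_cast
    ring
  unfold ell
  rw [e]
  ring

/-- The sign of a root with respect to a fixed root. -/
noncomputable def sg (z₀ z : ℂ) : ℤ := by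
  classical
  exact if z = z₀ ∨ z = starRingEnd ℂ z₀ then 1 else -1

lemma sg_conj (z₀ z : ℂ) : sg z₀ (starRingEnd ℂ z) = sg z₀ z := by
  unfold sg
  have h : (starRingEnd ℂ z = z₀ ∨ starRingEnd ℂ z = starRingEnd ℂ z₀) ↔
      (z = z₀ ∨ z = starRingEnd ℂ z₀) := by
    constructor
    · rintro (h | h)
      · right; rw [← h, Complex.conj_conj]
      · left; exact (starRingEnd ℂ).injective h
    · rintro (h | h)
      · right; rw [h]
      · left; rw [h, Complex.conj_conj]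
  simp only [h]

lemma ell_sg {z₀ z : ℂ} (hz₀ : z₀ ^ 4 + z₀ + 1 = 0) (hz : z ^ 4 + z + 1 = 0) (x : ℝ) :
    ell x z = (sg z₀ z : ℝ) * ell x z₀ := by
  unfold sg
  split_ifs with h
  · rcases h with h | h
    · rw [h]; simp
    · rw [h, ell_conj]; simp
  · push Not at h
    rw [ell_neg hz₀ hz h.1 h.2 x]
    push_cast
    ring

lemma sg_sq (z₀ z : ℂ) : sg z₀ z = 1 ∨ sg z₀ z = -1 := by
  unfold sg
  split_ifs
  · exact Or.inl rfl
  · exact Or.inr rfl

/-- Nonconjugate different roots have opposite signs. -/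
lemma sg_neg {z₀ z z' : ℂ} (hz₀ : z₀ ^ 4 + z₀ + 1 = 0) (hz : z ^ 4 + z + 1 = 0)
    (hz' : z' ^ 4 + z' + 1 = 0) (h1 : z' ≠ z) (h2 : z' ≠ starRingEnd ℂ z) :
    sg z₀ z' = - sg z₀ z := by
  -- use the real parts: the real part of a root is nonzero
  have hre : z₀.re ≠ 0 := by
    intro h
    obtain ⟨r1, -⟩ := root_rel hz₀
    rw [h] at r1
    norm_num at r1
  have key : ∀ w : ℂ, w ^ 4 + w + 1 = 0 → w.re = (sg z₀ w : ℝ) * z₀.re := by
    intro w hw
    unfold sg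
    split_ifs with h
    · rcases h with h | h
      · rw [h]; simp
      · rw [h]; simp
    · push Not at h
      rw [(pair_rel hz₀ hw h.1 h.2).1]
      push_cast
      ring
  have k1 := key z hz
  have k2 := key z' hz'
  have k3 := (pair_rel hz hz' h1 h2).1
  rw [k1, k2] at k3
  have : (sg z₀ z' : ℝ) = - (sg z₀ z : ℝ) := by
    have h5 : ((sg z₀ z' : ℝ) + (sg z₀ z : ℝ)) * z₀.re = 0 := by linarith
    rcases mul_eq_zero.mp h5 with h | h
    · linarith
    · exact absurd h hre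
  exact_mod_cast this

/-- A root does not have absolute value `1`. -/
lemma ell_zero_ne {z : ℂ} (hz : z ^ 4 + z + 1 = 0) : ell 0 z ≠ 0 := by
  intro h
  unfold ell at h
  simp only [Complex.ofReal_zero, sub_zero] at h
  norm_num at h
  have hz0 : z ≠ 0 := by
    rintro rfl
    norm_num at hz
  have hn : ‖z‖ = 1 := by
    rcases h with h | h | h
    · exact absurd h hz0
    · exact h
    · have := norm_nonneg z
      linarith
  have hc : z * starRingEnd ℂ z = 1 := by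
    rw [Complex.mul_conj, Complex.normSq_eq_norm_sq, hn]
    norm_num
  have hz' := conj_root hz
  have h2 : z ^ 4 * ((starRingEnd ℂ z) ^ 4 + (starRingEnd ℂ z) + 1) = 1 + z ^ 3 + z ^ 4 := by
    have e : z ^ 4 * ((starRingEnd ℂ z) ^ 4 + (starRingEnd ℂ z) + 1) =
      (z * starRingEnd ℂ z) ^ 4 + z ^ 3 * (z * starRingEnd ℂ z) + z ^ 4 := by ring
    rw [e, hc]; ring
  rw [hz', mul_zero] at h2
  have h3 : z * (z - 1) * (z + 1) = 0 := by linear_combination (-1) * h2 - hz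
  rcases mul_eq_zero.mp h3 with h4 | h4
  · rcases mul_eq_zero.mp h4 with h5 | h5
    · exact hz0 h5
    · have : z = 1 := by linear_combination h5
      rw [this] at hz
      norm_num at hz
  · have : z = -1 := by linear_combination h4
    rw [this] at hz
    norm_num at hz

end Pool.Agent.H492R2.Tor
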