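import Mathlib
import Pool.Agent.H492R2.Tor.Quartic

set_option autoImplicit false
set_option linter.unusedSectionVars false

namespace Pool.Agent.H492R2.Tor

open Polynomial

/-- Four distinct roots of `X ^ 4 + X + 1` such that any two of them are complex conjugate under a
suitable embedding. -/
structure QData (K : Type) [Field K] where
  α : Fin 4 → K
  root : ∀ i, α i ^ 4 + α i + 1 = 0
  inj : Function.Injective α
  pair : ∀ i j, i ≠ j → ∃ τ : K →+* ℂ, starRingEnd ℂ (τ (α i)) = τ (α j)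

/-- the quartic over `ℤ` -/
noncomputable def fZ : ℤ[X] := X ^ 4 + X + 1

lemma fZ_eq : fZ = X ^ 4 + (X + C 1) := by
  simp [fZ, add_assoc]

lemma fZ_monic : fZ.Monic := by
  rw [fZ_eq]
  monicity!

lemma fZ_natDegree : fZ.natDegree = 4 := by
  rw [fZ_eq]
  compute_degree!

namespace QData

variable {K : Type} [Field K] [CharZero K] (Q : QData K)

lemma map_fZ : fZ.map (Int.castRingHom K) = ∏ i, (X - C (Q.α i)) := by
  apply eq_of_monic_of_dvd_of_natDegree_le
  · exact monic_prod_of_monic _ _ (fun i _ => monic_X_sub_C _)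
  · exact fZ_monic.map _
  · apply Finset.prod_dvd_of_coprime
    · exact (pairwise_coprime_X_sub_C Q.inj).set_pairwise _
    · intro i _
      rw [dvd_iff_isRoot, IsRoot.def, eval_map, fZ]
      simp [eval₂_add, eval₂_pow, Q.root i]
  · rw [fZ_monic.natDegree_map, fZ_natDegree, natDegree_prod_of_monic _ _
      (fun i _ => monic_X_sub_C _)]
    simp

lemma dvd_of_roots (A : ℤ[X]) (h : ∀ i, aeval (Q.α i) A = 0) : fZ ∣ A := by
  rw [← map_dvd_map (Int.castRingHom K) (RingHom.injective_int _) fZ_monic, Q.map_fZ]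
  apply Finset.prod_dvd_of_coprime
  · exact (pairwise_coprime_X_sub_C Q.inj).set_pairwise _
  · intro i _
    rw [dvd_iff_isRoot, IsRoot.def, eval_map, ← algebraMap_int_eq, ← aeval_def]
    exact h i

lemma conj_aeval (z : ℂ) (U : ℤ[X]) : starRingEnd ℂ (aeval z U) = aeval (starRingEnd ℂ z) U := by
  have := aeval_algHom_apply (starRingEnd ℂ).toIntAlgHom z U
  exact this.symm

lemma map_aeval (τ : K →+* ℂ) (x : K) (U : ℤ[X]) : τ (aeval x U) = aeval (τ x) U := by
  have := aeval_algHom_apply τ.toIntAlgHom x U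
  exact this.symm

lemma map_root (τ : K →+* ℂ) (i : Fin 4) : (τ (Q.α i)) ^ 4 + τ (Q.α i) + 1 = 0 := by
  have := congrArg τ (Q.root i)
  simpa using this

lemma pair_eq (U V : ℤ[X])
    (hUV : ∀ z : ℂ, z ^ 4 + z + 1 = 0 → ‖aeval z U‖ = ‖aeval z V‖) (i j : Fin 4) (hij : i ≠ j) :
    aeval (Q.α i) U * aeval (Q.α j) U = aeval (Q.α i) V * aeval (Q.α j) V := by
  obtain ⟨τ, hτ⟩ := Q.pair i j hij
  apply τ.injective
  rw [map_mul, map_mul, map_aeval, map_aeval, map_aeval, map_aeval, ← hτ, ← conj_aeval,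
    ← conj_aeval, Complex.mul_conj, Complex.mul_conj, Complex.normSq_eq_norm_sq,
    Complex.normSq_eq_norm_sq, hUV _ (Q.map_root τ i)]

lemma sq_eq (U V : ℤ[X])
    (hUV : ∀ z : ℂ, z ^ 4 + z + 1 = 0 → ‖aeval z U‖ = ‖aeval z V‖)
    (hV : ∀ z : ℂ, z ^ 4 + z + 1 = 0 → aeval z V ≠ 0) (i j k : Fin 4) (hij : i ≠ j)
    (hik : i ≠ k) (hjk : j ≠ k) :
    aeval (Q.α i) (U ^ 2 - V ^ 2) = 0 := by
  have h1 := Q.pair_eq U V hUV i j hij
  have h2 := Q.pair_eq U V hUV i k hik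
  have h3 := Q.pair_eq U V hUV j k hjk
  have hVne : ∀ i, aeval (Q.α i) V ≠ 0 := by
    intro i h
    obtain ⟨τ, -⟩ := Q.pair 0 1 (by decide)
    apply hV (τ (Q.α i)) (Q.map_root τ i)
    rw [← map_aeval, h, map_zero]
  rw [map_sub, map_pow, map_pow]
  generalize aeval (Q.α i) U = ui at *
  generalize aeval (Q.α j) U = uj at *
  generalize aeval (Q.α k) U = uk at *
  have hi := hVne i
  have hj := hVne j
  have hk := hVne k
  generalize aeval (Q.α i) V = vi at *
  generalize aeval (Q.α j) V = vj at *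
  generalize aeval (Q.α k) V = vk at *
  have h4 : (vj * vk) * (ui ^ 2 - vi ^ 2) = 0 := by
    rw [← h3]
    linear_combination (ui * uk) * h1 + (vi * vj) * h2 - vi ^ 2 * h3
  rcases mul_eq_zero.mp h4 with h | h
  · exact absurd h (mul_ne_zero hj hk)
  · exact h

include Q in
lemma dvd_sq (U V : ℤ[X])
    (hUV : ∀ z : ℂ, z ^ 4 + z + 1 = 0 → ‖aeval z U‖ = ‖aeval z V‖)
    (hV : ∀ z : ℂ, z ^ 4 + z + 1 = 0 → aeval z V ≠ 0) : fZ ∣ U ^ 2 - V ^ 2 := by
  apply Q.dvd_of_roots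
  intro i
  obtain ⟨j, k, hij, hik, hjk⟩ : ∃ j k : Fin 4, i ≠ j ∧ i ≠ k ∧ j ≠ k := by
    revert i
    decide
  exact Q.sq_eq U V hUV hV i j k hij hik hjk

end QData

/-- If `f ∣ U ^ 2 - V ^ 2` and `ζ` is a root of `f` in a field, then `U(ζ) = 0` iff `V(ζ) = 0`. -/
lemma zero_iff_of_dvd {F : Type*} [Field F] (U V : ℤ[X]) (h : fZ ∣ U ^ 2 - V ^ 2) (ζ : F)
    (hζ : ζ ^ 4 + ζ + 1 = 0) : aeval ζ U = 0 ↔ aeval ζ V = 0 := by
  obtain ⟨B, hB⟩ := h
  have h1 := congrArg (aeval ζ) hB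
  rw [map_sub, map_pow, map_pow, map_mul] at h1
  have h2 : aeval ζ fZ = 0 := by simp [fZ, hζ]
  rw [h2, zero_mul, sub_eq_zero] at h1
  constructor
  · intro h
    rw [h] at h1
    exact pow_eq_zero_iff (two_ne_zero) |>.mp (by rw [← h1]; simp)
  · intro h
    rw [h] at h1
    exact pow_eq_zero_iff (two_ne_zero) |>.mp (by rw [h1]; simp)

instance fact19 : Fact (Nat.Prime 19) := ⟨by norm_num⟩

instance fact3 : Fact (Nat.Prime 3) := ⟨by norm_num⟩

lemma exists_root_19 : ∃ ζ : AlgebraicClosure (ZMod 19), ζ ^ 4 + ζ + 1 = 0 ∧ ζ ≠ 0 ∧ ζ - 1 ≠ 0 ∧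
    ζ - 2 ≠ 0 := by
  have h19 : ((19 : ℕ) : AlgebraicClosure (ZMod 19)) = 0 := CharP.cast_eq_zero _ 19
  have hsmall : ∀ n : ℕ, 0 < n → n < 19 → ((n : ℕ) : AlgebraicClosure (ZMod 19)) ≠ 0 := by
    intro n h0 h1 h2
    rw [CharP.cast_eq_zero_iff _ 19] at h2
    exact absurd (Nat.le_of_dvd h0 h2) (by omega)
  obtain ⟨ζ, hζ⟩ := IsAlgClosed.exists_root
    (X ^ 3 + C 2 * X ^ 2 + C 4 * X + C 9 : (AlgebraicClosure (ZMod 19))[X]) (by
      have : (X ^ 3 + C 2 * X ^ 2 + C 4 * X + C 9 : (AlgebraicClosure (ZMod 19))[X]).degree = 3 := by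
        compute_degree!
      rw [this]
      decide)
  rw [IsRoot.def] at hζ
  simp only [eval_add, eval_pow, eval_X, eval_mul, eval_C] at hζ
  have h19' : (19 : AlgebraicClosure (ZMod 19)) = 0 := by exact_mod_cast h19
  have hroot : ζ ^ 4 + ζ + 1 = 0 := by
    linear_combination (ζ - 2) * hζ + h19'
  refine ⟨ζ, hroot, ?_, ?_, ?_⟩
  · rintro h
    rw [h] at hroot
    norm_num at hroot
  · intro h
    have h1 : ζ = 1 := by linear_combination h
    rw [h1] at hroot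
    apply hsmall 3 (by norm_num) (by norm_num)
    push_cast
    linear_combination hroot
  · intro h
    have h1 : ζ = 2 := by linear_combination h
    rw [h1] at hζ
    apply hsmall 14 (by norm_num) (by norm_num)
    push_cast
    linear_combination hζ - h19'

/-- A root of the quartic modulo `3` different from `1`. -/
lemma exists_root_3 : ∃ ζ : AlgebraicClosure (ZMod 3), ζ ^ 4 + ζ + 1 = 0 ∧ ζ ≠ 0 ∧ ζ - 1 ≠ 0 := by
  have h3 : ((3 : ℕ) : AlgebraicClosure (ZMod 3)) = 0 := CharP.cast_eq_zero _ 3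
  have hsmall : ∀ n : ℕ, 0 < n → n < 3 → ((n : ℕ) : AlgebraicClosure (ZMod 3)) ≠ 0 := by
    intro n h0 h1 h2
    rw [CharP.cast_eq_zero_iff _ 3] at h2
    exact absurd (Nat.le_of_dvd h0 h2) (by omega)
  obtain ⟨ζ, hζ⟩ := IsAlgClosed.exists_root
    (X ^ 3 + X ^ 2 + X + C 2 : (AlgebraicClosure (ZMod 3))[X]) (by
      have : (X ^ 3 + X ^ 2 + X + C 2 : (AlgebraicClosure (ZMod 3))[X]).degree = 3 := by
        compute_degree!
      rw [this]
      decide)
  rw [IsRoot.def] at hζ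
  simp only [eval_add, eval_pow, eval_X, eval_C] at hζ
  have h3' : (3 : AlgebraicClosure (ZMod 3)) = 0 := by exact_mod_cast h3
  have hroot : ζ ^ 4 + ζ + 1 = 0 := by
    linear_combination (ζ - 1) * hζ + h3'
  refine ⟨ζ, hroot, ?_, ?_⟩
  · rintro h
    rw [h] at hroot
    norm_num at hroot
  · intro h
    have h1 : ζ = 1 := by linear_combination h
    rw [h1] at hζ
    apply hsmall 2 (by norm_num) (by norm_num)
    push_cast
    linear_combination hζ - h3'

end Pool.Agent.H492R2.Tor
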