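import Mathlib
import Pool.Agent.H492R2.Tor.QuarticIndep

set_option autoImplicit false
set_option linter.unusedSectionVars false

namespace Pool.Agent.H492R2.Tor

open Polynomial

/-- The auxiliary polynomial. -/
noncomputable def UU (a b c b' c' : ℕ) : ℤ[X] :=
  X ^ (4 * a) * (X - 1) ^ (4 * b) * (X - 2) ^ (4 * c) * C ((3 : ℤ) ^ b') * C ((19 : ℤ) ^ c')

lemma aeval_UU {F : Type*} [CommRing F] (ζ : F) (a b c b' c' : ℕ) :
    aeval ζ (UU a b c b' c') =
      ζ ^ (4 * a) * (ζ - 1) ^ (4 * b) * (ζ - 2) ^ (4 * c) * 3 ^ b' * 19 ^ c' := by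
  have h2 : aeval ζ (2 : ℤ[X]) = 2 := map_ofNat _ 2
  have h3 : aeval ζ (C ((3 : ℤ) ^ b')) = (3 : F) ^ b' := by
    rw [aeval_C]; simp
  have h19 : aeval ζ (C ((19 : ℤ) ^ c')) = (19 : F) ^ c' := by
    rw [aeval_C]; simp
  rw [UU, map_mul, map_mul, map_mul, map_mul, map_pow, map_pow, map_pow, map_sub, map_sub, aeval_X,
    map_one, h2, h3, h19]

lemma ne_of_root {z : ℂ} (hz : z ^ 4 + z + 1 = 0) : z ≠ 0 ∧ z - 1 ≠ 0 ∧ z - 2 ≠ 0 := by
  have h := im_ne hz
  refine ⟨?_, ?_, ?_⟩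
  · rintro rfl; simp at h
  · intro h1
    have : z = 1 := by linear_combination h1
    rw [this] at h; simp at h
  · intro h1
    have : z = 2 := by linear_combination h1
    rw [this] at h; simp at h

lemma UU_ne {z : ℂ} (hz : z ^ 4 + z + 1 = 0) (a b c b' c' : ℕ) :
    aeval z (UU a b c b' c') ≠ 0 := by
  obtain ⟨h0, h1, h2⟩ := ne_of_root hz
  rw [aeval_UU]
  refine mul_ne_zero (mul_ne_zero (mul_ne_zero (mul_ne_zero (pow_ne_zero _ h0)
    (pow_ne_zero _ h1)) (pow_ne_zero _ h2)) (pow_ne_zero _ (by norm_num)))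
    (pow_ne_zero _ (by norm_num))

lemma log_UU {z : ℂ} (hz : z ^ 4 + z + 1 = 0) (a b c b' c' : ℕ) :
    Real.log ‖aeval z (UU a b c b' c')‖ = a * (4 * Real.log ‖z‖) + b * (4 * Real.log ‖z - 1‖) +
      c * (4 * Real.log ‖z - 2‖) + b' * Real.log 3 + c' * Real.log 19 := by
  obtain ⟨h0, h1, h2⟩ := ne_of_root hz
  rw [aeval_UU]
  have n0 := norm_ne_zero_iff.mpr h0
  have n1 := norm_ne_zero_iff.mpr h1
  have n2 := norm_ne_zero_iff.mpr h2
  have n3 : ‖(3 : ℂ)‖ = 3 := by simp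
  have n19 : ‖(19 : ℂ)‖ = 19 := by simp
  rw [norm_mul, norm_mul, norm_mul, norm_mul, norm_pow, norm_pow, norm_pow, norm_pow, norm_pow,
    n3, n19,
    Real.log_mul (mul_ne_zero (mul_ne_zero (mul_ne_zero (pow_ne_zero _ n0)
      (pow_ne_zero _ n1)) (pow_ne_zero _ n2)) (pow_ne_zero _ (by norm_num)))
      (pow_ne_zero _ (by norm_num)),
    Real.log_mul (mul_ne_zero (mul_ne_zero (pow_ne_zero _ n0)
      (pow_ne_zero _ n1)) (pow_ne_zero _ n2)) (pow_ne_zero _ (by norm_num)),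
    Real.log_mul (mul_ne_zero (pow_ne_zero _ n0) (pow_ne_zero _ n1)) (pow_ne_zero _ n2),
    Real.log_mul (pow_ne_zero _ n0) (pow_ne_zero _ n1),
    Real.log_pow, Real.log_pow, Real.log_pow, Real.log_pow, Real.log_pow]
  push_cast
  ring

lemma ell_zero (z : ℂ) : ell 0 z = 4 * Real.log ‖z‖ := by
  unfold ell; norm_num

lemma ell_one (z : ℂ) : ell 1 z = 4 * Real.log ‖z - 1‖ - Real.log 3 := by
  unfold ell; norm_num

lemma ell_two (z : ℂ) : ell 2 z = 4 * Real.log ‖z - 2‖ - Real.log 19 := by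
  unfold ell; norm_num

/-- The key independence statement. -/
theorem QData.indep {K : Type} [Field K] [CharZero K] (Q : QData K) {z₀ : ℂ}
    (hz₀ : z₀ ^ 4 + z₀ + 1 = 0) (a b c : ℤ)
    (h : (a : ℝ) * ell 0 z₀ + (b : ℝ) * ell 1 z₀ + (c : ℝ) * ell 2 z₀ = 0) :
    a = 0 ∧ b = 0 ∧ c = 0 := by
  have ha : (a : ℝ) = (a.toNat : ℝ) - ((-a).toNat : ℝ) := by
    have : (a : ℤ) = (a.toNat : ℤ) - ((-a).toNat : ℤ) := by omega
    exact_mod_cast this
  have hb : (b : ℝ) = (b.toNat : ℝ) - ((-b).toNat : ℝ) := by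
    have : (b : ℤ) = (b.toNat : ℤ) - ((-b).toNat : ℤ) := by omega
    exact_mod_cast this
  have hc : (c : ℝ) = (c.toNat : ℝ) - ((-c).toNat : ℝ) := by
    have : (c : ℤ) = (c.toNat : ℤ) - ((-c).toNat : ℤ) := by omega
    exact_mod_cast this
  set U := UU a.toNat b.toNat c.toNat (-b).toNat (-c).toNat with hU
  set V := UU (-a).toNat (-b).toNat (-c).toNat b.toNat c.toNat with hV
  have hUV : ∀ z : ℂ, z ^ 4 + z + 1 = 0 → ‖aeval z U‖ = ‖aeval z V‖ := by
    intro z hz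
    have h0 := ell_sg hz₀ hz 0
    have h1 := ell_sg hz₀ hz 1
    have h2 := ell_sg hz₀ hz 2
    have hlin : (a : ℝ) * ell 0 z + (b : ℝ) * ell 1 z + (c : ℝ) * ell 2 z = 0 := by
      rw [h0, h1, h2]
      linear_combination (sg z₀ z : ℝ) * h
    rw [ell_zero, ell_one, ell_two, ha, hb, hc] at hlin
    have hlog : Real.log ‖aeval z U‖ = Real.log ‖aeval z V‖ := by
      rw [hU, hV, log_UU hz, log_UU hz]
      linear_combination hlin
    exact Real.log_injOn_pos (Set.mem_Ioi.mpr (norm_pos_iff.mpr (UU_ne hz _ _ _ _ _)))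
      (Set.mem_Ioi.mpr (norm_pos_iff.mpr (UU_ne hz _ _ _ _ _))) hlog
  have hdvd := Q.dvd_sq U V hUV (fun z hz => UU_ne hz _ _ _ _ _)
  -- reduction modulo 19
  have hc0 : c = 0 := by
    obtain ⟨ζ, hζ, n0, n1, n2⟩ := exists_root_19
    have hiff := zero_iff_of_dvd U V hdvd ζ hζ
    have h19 : (19 : AlgebraicClosure (ZMod 19)) = 0 := by
      exact_mod_cast (CharP.cast_eq_zero (AlgebraicClosure (ZMod 19)) 19)
    have h3 : (3 : AlgebraicClosure (ZMod 19)) ≠ 0 := by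
      intro h3
      have : ((3 : ℕ) : AlgebraicClosure (ZMod 19)) = 0 := by exact_mod_cast h3
      rw [CharP.cast_eq_zero_iff _ 19] at this
      exact absurd (Nat.le_of_dvd (by norm_num) this) (by norm_num)
    rw [hU, hV, aeval_UU, aeval_UU, h19] at hiff
    by_contra hne
    rcases lt_or_gt_of_ne hne with hlt | hgt
    · have e1 : c.toNat = 0 := by omega
      have e2 : (-c).toNat ≠ 0 := by omega
      rw [e1] at hiff
      have hz : ζ ^ (4 * (-a).toNat) * (ζ - 1) ^ (4 * (-b).toNat) * (ζ - 2) ^ (4 * (-c).toNat) *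
        3 ^ b.toNat * 0 ^ 0 ≠ 0 := by
        rw [pow_zero, mul_one]
        exact mul_ne_zero (mul_ne_zero (mul_ne_zero (pow_ne_zero _ n0)
          (pow_ne_zero _ n1)) (pow_ne_zero _ n2)) (pow_ne_zero _ h3)
      apply hz
      apply hiff.mp
      rw [zero_pow e2, mul_zero]
    · have e1 : (-c).toNat = 0 := by omega
      have e2 : c.toNat ≠ 0 := by omega
      rw [e1] at hiff
      have hz : ζ ^ (4 * a.toNat) * (ζ - 1) ^ (4 * b.toNat) * (ζ - 2) ^ (4 * c.toNat) *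
        3 ^ (-b).toNat * 0 ^ 0 ≠ 0 := by
        rw [pow_zero, mul_one]
        exact mul_ne_zero (mul_ne_zero (mul_ne_zero (pow_ne_zero _ n0)
          (pow_ne_zero _ n1)) (pow_ne_zero _ n2)) (pow_ne_zero _ h3)
      apply hz
      apply hiff.mpr
      rw [zero_pow e2, mul_zero]
  have hb0 : b = 0 := by
    obtain ⟨ζ, hζ, n0, n1⟩ := exists_root_3
    have hiff := zero_iff_of_dvd U V hdvd ζ hζ
    have h3 : (3 : AlgebraicClosure (ZMod 3)) = 0 := by
      exact_mod_cast (CharP.cast_eq_zero (AlgebraicClosure (ZMod 3)) 3)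
    rw [hU, hV, aeval_UU, aeval_UU, h3, hc0] at hiff
    simp only [neg_zero, Int.toNat_zero, mul_zero, pow_zero, mul_one] at hiff
    by_contra hne
    rcases lt_or_gt_of_ne hne with hlt | hgt
    · have e1 : b.toNat = 0 := by omega
      have e2 : (-b).toNat ≠ 0 := by omega
      rw [e1] at hiff
      have hz : ζ ^ (4 * (-a).toNat) * (ζ - 1) ^ (4 * (-b).toNat) * 0 ^ 0 ≠ 0 := by
        rw [pow_zero, mul_one]
        exact mul_ne_zero (pow_ne_zero _ n0) (pow_ne_zero _ n1)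
      apply hz
      apply hiff.mp
      rw [zero_pow e2, mul_zero]
    · have e1 : (-b).toNat = 0 := by omega
      have e2 : b.toNat ≠ 0 := by omega
      rw [e1] at hiff
      have hz : ζ ^ (4 * a.toNat) * (ζ - 1) ^ (4 * b.toNat) * 0 ^ 0 ≠ 0 := by
        rw [pow_zero, mul_one]
        exact mul_ne_zero (pow_ne_zero _ n0) (pow_ne_zero _ n1)
      apply hz
      apply hiff.mpr
      rw [zero_pow e2, mul_zero]
  refine ⟨?_, hb0, hc0⟩
  rw [hb0, hc0] at h
  have h1 : (a : ℝ) * ell 0 z₀ = 0 := by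
    push_cast at h
    linarith
  rcases mul_eq_zero.mp h1 with h2 | h2
  · exact_mod_cast h2
  · exact absurd h2 (ell_zero_ne hz₀)

/-- Rational version. -/
theorem QData.indep_rat {K : Type} [Field K] [CharZero K] (Q : QData K) {z₀ : ℂ}
    (hz₀ : z₀ ^ 4 + z₀ + 1 = 0) (a b c : ℚ)
    (h : (a : ℝ) * ell 0 z₀ + (b : ℝ) * ell 1 z₀ + (c : ℝ) * ell 2 z₀ = 0) :
    a = 0 ∧ b = 0 ∧ c = 0 := by
  have h1 := Q.indep hz₀ (a.num * (b.den * c.den)) (b.num * (a.den * c.den))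
    (c.num * (a.den * b.den)) (by
      have ea : (a : ℝ) * (a.den : ℝ) = (a.num : ℝ) := by exact_mod_cast Rat.mul_den_eq_num a
      have eb : (b : ℝ) * (b.den : ℝ) = (b.num : ℝ) := by exact_mod_cast Rat.mul_den_eq_num b
      have ec : (c : ℝ) * (c.den : ℝ) = (c.num : ℝ) := by exact_mod_cast Rat.mul_den_eq_num c
      push_cast
      rw [← ea, ← eb, ← ec]
      linear_combination ((a.den : ℝ) * (b.den : ℝ) * (c.den : ℝ)) * h)
  have na : (a.den : ℤ) ≠ 0 := by exact_mod_cast a.den_ne_zero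
  have nb : (b.den : ℤ) ≠ 0 := by exact_mod_cast b.den_ne_zero
  have nc : (c.den : ℤ) ≠ 0 := by exact_mod_cast c.den_ne_zero
  obtain ⟨h1, h2, h3⟩ := h1
  refine ⟨?_, ?_, ?_⟩
  · rcases mul_eq_zero.mp h1 with h | h
    · exact Rat.num_eq_zero.mp h
    · exact absurd h (mul_ne_zero nb nc)
  · rcases mul_eq_zero.mp h2 with h | h
    · exact Rat.num_eq_zero.mp h
    · exact absurd h (mul_ne_zero na nc)
  · rcases mul_eq_zero.mp h3 with h | h
    · exact Rat.num_eq_zero.mp h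
    · exact absurd h (mul_ne_zero na nb)

end Pool.Agent.H492R2.Tor
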