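import Mathlib
import Pool.Agent.H492R2.Tor.QuarticIndep2

set_option autoImplicit false
set_option linter.unusedSectionVars false

/-!
# The splitting field of `X ^ 4 + X + 1`
-/

namespace Pool.Agent.H492R2.Tor

open Polynomial NumberField

/-- `a, b, c, d` are the roots of `X ^ 4 + X + 1` (Vieta). -/
structure IsRoots {F : Type*} [CommRing F] (a b c d : F) : Prop where
  e1 : a + b + c + d = 0
  e2 : a * b + a * c + a * d + b * c + b * d + c * d = 0
  e3 : a * b * c + a * b * d + a * c * d + b * c * d = -1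
  e4 : a * b * c * d = 1

namespace IsRoots

section CommRing

variable {F : Type*} [CommRing F] {a b c d : F}

lemma swap12 (h : IsRoots a b c d) : IsRoots b a c d :=
  ⟨by linear_combination h.e1, by linear_combination h.e2, by linear_combination h.e3,
    by linear_combination h.e4⟩

lemma swap13 (h : IsRoots a b c d) : IsRoots c b a d :=
  ⟨by linear_combination h.e1, by linear_combination h.e2, by linear_combination h.e3,
    by linear_combination h.e4⟩

lemma swap14 (h : IsRoots a b c d) : IsRoots d b c a :=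
  ⟨by linear_combination h.e1, by linear_combination h.e2, by linear_combination h.e3,
    by linear_combination h.e4⟩

lemma swap23 (h : IsRoots a b c d) : IsRoots a c b d :=
  ⟨by linear_combination h.e1, by linear_combination h.e2, by linear_combination h.e3,
    by linear_combination h.e4⟩

lemma swap24 (h : IsRoots a b c d) : IsRoots a d c b :=
  ⟨by linear_combination h.e1, by linear_combination h.e2, by linear_combination h.e3,
    by linear_combination h.e4⟩

lemma map {G : Type*} [CommRing G] (τ : F →+* G) (h : IsRoots a b c d) :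
    IsRoots (τ a) (τ b) (τ c) (τ d) := by
  refine ⟨?_, ?_, ?_, ?_⟩
  · have := congrArg τ h.e1; simpa using this
  · have := congrArg τ h.e2; simpa using this
  · have := congrArg τ h.e3; simpa using this
  · have := congrArg τ h.e4; simpa using this

lemma eval_eq (h : IsRoots a b c d) (x : F) :
    (x - a) * (x - b) * (x - c) * (x - d) = x ^ 4 + x + 1 := by
  linear_combination (-x ^ 3) * h.e1 + x ^ 2 * h.e2 - x * h.e3 + h.e4

lemma root (h : IsRoots a b c d) : a ^ 4 + a + 1 = 0 := by
  rw [← h.eval_eq a]; ring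

lemma theta (h : IsRoots a b c d) : (a * b + c * d) ^ 3 - 4 * (a * b + c * d) - 1 = 0 := by
  have h1 := h.e1
  have h2 := h.e2
  have h3 := h.e3
  have h4 := h.e4
  linear_combination ((a * b + c * d) ^ 2 - 4 * (a * b * c * d)) * h2 +
    (-(a * b * c + a * b * d + a * c * d + b * c * d) * (a * b + c * d) +
      (a + b + c + d) * (a * b * c * d)) * h1 + 4 * (a * b + c * d) * h4 +
    ((a * b * c + a * b * d + a * c * d + b * c * d) - 1) * h3

end CommRing

section Field

variable {F : Type*} [Field F] [CharZero F] {a b c d : F}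

lemma ne12 (h : IsRoots a b c d) : a ≠ b := by
  rintro rfl
  have h1 := h.e1
  have h2 := h.e2
  have h3 := h.e3
  have h4 := h.e4
  have hcd : c * d = 3 * a ^ 2 := by linear_combination h2 - 2 * a * h1
  have k1 : 4 * a ^ 3 = -1 := by
    linear_combination h3 - a ^ 2 * h1 - 2 * a * hcd
  have k2 : 3 * a ^ 4 = 1 := by
    linear_combination h4 - a ^ 2 * hcd
  have k3 : a = -4 / 3 := by
    have : 3 * a + 4 = 0 := by linear_combination (3 * a) * k1 - 4 * k2
    field_simp
    linear_combination this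
  rw [k3] at k1
  norm_num at k1

lemma ne13 (h : IsRoots a b c d) : a ≠ c := h.swap23.ne12
lemma ne14 (h : IsRoots a b c d) : a ≠ d := h.swap24.ne12
lemma ne23 (h : IsRoots a b c d) : b ≠ c := h.swap12.swap23.ne12
lemma ne24 (h : IsRoots a b c d) : b ≠ d := h.swap12.swap24.ne12
lemma ne34 (h : IsRoots a b c d) : c ≠ d := h.swap13.swap24.ne12

lemma mem_of_root (h : IsRoots a b c d) (x : F) (hx : x ^ 4 + x + 1 = 0) :
    x = a ∨ x = b ∨ x = c ∨ x = d := by
  rw [← h.eval_eq x] at hx
  rcases mul_eq_zero.mp hx with hx | hx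
  · rcases mul_eq_zero.mp hx with hx | hx
    · rcases mul_eq_zero.mp hx with hx | hx
      · exact Or.inl (sub_eq_zero.mp hx)
      · exact Or.inr (Or.inl (sub_eq_zero.mp hx))
    · exact Or.inr (Or.inr (Or.inl (sub_eq_zero.mp hx)))
  · exact Or.inr (Or.inr (Or.inr (sub_eq_zero.mp hx)))

end Field

section Complex

variable {a b c d : ℂ}

lemma conj_ne {z : ℂ} (hz : z ^ 4 + z + 1 = 0) : starRingEnd ℂ z ≠ z := by
  intro h
  exact im_ne hz (Complex.conj_eq_iff_im.mp h)

lemma conj_snd (h : IsRoots a b c d) (hab : starRingEnd ℂ a = b) : starRingEnd ℂ c = d := by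
  have hc : c ^ 4 + c + 1 = 0 := h.swap13.root
  rcases h.mem_of_root _ (conj_root hc) with h1 | h1 | h1 | h1
  · exact absurd (by rw [← hab, ← h1, Complex.conj_conj]) h.ne23
  · exact absurd ((starRingEnd ℂ).injective (by rw [hab, h1])) h.ne13
  · exact absurd h1 (conj_ne hc)
  · exact h1

lemma types (h : IsRoots a b c d) :
    (starRingEnd ℂ a = b ∧ starRingEnd ℂ c = d) ∨ (starRingEnd ℂ a = c ∧ starRingEnd ℂ b = d) ∨
      (starRingEnd ℂ a = d ∧ starRingEnd ℂ b = c) := by
  rcases h.mem_of_root _ (conj_root h.root) with h1 | h1 | h1 | h1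
  · exact absurd h1 (conj_ne h.root)
  · exact Or.inl ⟨h1, h.conj_snd h1⟩
  · exact Or.inr (Or.inl ⟨h1, h.swap23.conj_snd h1⟩)
  · refine Or.inr (Or.inr ⟨h1, ?_⟩)
    have h2 := h.swap24.conj_snd h1
    rw [← h2, Complex.conj_conj]

lemma pos (h : IsRoots a b c d) (hab : starRingEnd ℂ a = b) :
    ∃ t : ℝ, 0 < t ∧ t ^ 3 - 4 * t - 1 = 0 ∧ a * b + c * d = (t : ℂ) := by
  have hcd := h.conj_snd hab
  refine ⟨Complex.normSq a + Complex.normSq c, ?_, ?_, ?_⟩
  · have ha : a ≠ 0 := by
      rintro rfl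
      have := h.root
      norm_num at this
    have := Complex.normSq_pos.mpr ha
    have := Complex.normSq_nonneg c
    linarith
  · have ht := h.theta
    rw [← hab, ← hcd, Complex.mul_conj, Complex.mul_conj] at ht
    exact_mod_cast ht
  · rw [← hab, ← hcd, Complex.mul_conj, Complex.mul_conj]
    push_cast
    rfl

end Complex

end IsRoots

lemma unique_pos {x y : ℝ} (hx : 0 < x) (hy : 0 < y) (h1 : x ^ 3 - 4 * x - 1 = 0)
    (h2 : y ^ 3 - 4 * y - 1 = 0) : x = y := by
  have hx2 : 2 < x := by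
    by_contra h
    push Not at h
    nlinarith [mul_nonneg hx.le (sub_nonneg.mpr h), mul_nonneg (mul_nonneg hx.le hx.le)
      (sub_nonneg.mpr h)]
  have hy2 : 2 < y := by
    by_contra h
    push Not at h
    nlinarith [mul_nonneg hy.le (sub_nonneg.mpr h), mul_nonneg (mul_nonneg hy.le hy.le)
      (sub_nonneg.mpr h)]
  have h3 : (x - y) * (x ^ 2 + x * y + y ^ 2 - 4) = 0 := by linear_combination h1 - h2
  rcases mul_eq_zero.mp h3 with h | h
  · linarith
  · nlinarith

/-- The resolvent cubic. -/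
noncomputable def gQ : ℚ[X] := X ^ 3 - C 4 * X - C 1

lemma gQ_monic : gQ.Monic := by
  unfold gQ
  monicity!

lemma gQ_natDegree : gQ.natDegree = 3 := by
  unfold gQ
  compute_degree!

lemma gQ_irreducible : Irreducible gQ := by
  rw [gQ_monic.irreducible_iff_roots_eq_zero_of_degree_le_three (by rw [gQ_natDegree]; norm_num)
    (by rw [gQ_natDegree])]
  rw [Multiset.eq_zero_iff_forall_notMem]
  intro q hq
  rw [mem_roots gQ_monic.ne_zero, IsRoot.def] at hq
  have hq' : q ^ 3 - 4 * q - 1 = 0 := by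
    have := hq
    unfold gQ at this
    simpa using this
  obtain ⟨n, hn⟩ := isInteger_of_is_root_of_monic (A := ℤ) (K := ℚ) (p := X ^ 3 - C 4 * X - C 1)
    (by monicity!) (r := q) (by
      simp only [map_sub, map_pow, map_mul, aeval_X, aeval_C]
      simpa using hq')
  have hn' : (n : ℚ) = q := by simpa using hn
  rw [← hn'] at hq'
  have h1 : n ^ 3 - 4 * n - 1 = 0 := by exact_mod_cast hq'
  have h2 : n * (n ^ 2 - 4) = 1 := by linear_combination h1
  rcases Int.eq_one_or_neg_one_of_mul_eq_one h2 with h | h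
  · rw [h] at h1; norm_num at h1
  · rw [h] at h1; norm_num at h1

/-- Existence of embeddings of the first type. -/
lemma exists_type {K : Type} [Field K] [NumberField K] {a b c d : K} (h : IsRoots a b c d)
    (t : ℝ) (ht0 : 0 < t) (ht : t ^ 3 - 4 * t - 1 = 0) :
    ∃ τ : K →+* ℂ, starRingEnd ℂ (τ a) = τ b ∧ starRingEnd ℂ (τ c) = τ d := by
  have hmin : gQ = minpoly ℚ (a * b + c * d) := by
    apply minpoly.eq_of_irreducible_of_monic gQ_irreducible _ gQ_monic
    have := h.theta
    unfold gQ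
    simp only [map_sub, map_pow, map_mul, aeval_X, aeval_C]
    simpa using this
  have hmem : (t : ℂ) ∈ (minpoly ℚ (a * b + c * d)).rootSet ℂ := by
    rw [← hmin, mem_rootSet]
    refine ⟨gQ_monic.ne_zero, ?_⟩
    unfold gQ
    simp only [map_sub, map_pow, map_mul, aeval_X, aeval_C]
    have : ((t ^ 3 - 4 * t - 1 : ℝ) : ℂ) = 0 := by rw [ht]; simp
    simpa using this
  rw [← NumberField.Embeddings.range_eval_eq_rootSet_minpoly K ℂ] at hmem
  obtain ⟨τ, hτ⟩ := hmem
  refine ⟨τ, ?_⟩
  simp only [map_add, map_mul] at hτ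
  have hr := h.map τ
  rcases hr.types with h1 | h1 | h1
  · exact h1
  · exfalso
    obtain ⟨t', ht'0, ht', he⟩ := hr.swap23.pos h1.1
    have : t = t' := unique_pos ht0 ht'0 ht ht'
    rw [← this, ← hτ] at he
    have h3 : (τ a - τ d) * (τ b - τ c) = 0 := by linear_combination (-1) * he
    rcases mul_eq_zero.mp h3 with h4 | h4
    · exact hr.ne14 (sub_eq_zero.mp h4)
    · exact hr.ne23 (sub_eq_zero.mp h4)
  · exfalso
    obtain ⟨t', ht'0, ht', he⟩ := hr.swap24.pos h1.1
    have : t = t' := unique_pos ht0 ht'0 ht ht'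
    rw [← this, ← hτ] at he
    have h3 : (τ a - τ c) * (τ b - τ d) = 0 := by linear_combination (-1) * he
    rcases mul_eq_zero.mp h3 with h4 | h4
    · exact hr.ne13 (sub_eq_zero.mp h4)
    · exact hr.ne24 (sub_eq_zero.mp h4)

/-- Every number field containing the four roots gives the data. -/
theorem exists_QData {K : Type} [Field K] [NumberField K] {a b c d : K} (h : IsRoots a b c d) :
    Nonempty (QData K) := by
  -- a positive real root of the resolvent cubic
  obtain ⟨t, ht0, ht⟩ : ∃ t : ℝ, 0 < t ∧ t ^ 3 - 4 * t - 1 = 0 := by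
    obtain ⟨τ⟩ : Nonempty (K →+* ℂ) := inferInstance
    have hr := h.map τ
    rcases hr.types with h1 | h1 | h1
    · obtain ⟨t, h1, h2, -⟩ := hr.pos h1.1
      exact ⟨t, h1, h2⟩
    · obtain ⟨t, h1, h2, -⟩ := hr.swap23.pos h1.1
      exact ⟨t, h1, h2⟩
    · obtain ⟨t, h1, h2, -⟩ := hr.swap24.pos h1.1
      exact ⟨t, h1, h2⟩
  obtain ⟨τ1, h1, h1'⟩ := exists_type h t ht0 ht
  obtain ⟨τ2, h2, h2'⟩ := exists_type h.swap23 t ht0 ht
  obtain ⟨τ3, h3, h3'⟩ := exists_type h.swap24 t ht0 ht
  have c1 : starRingEnd ℂ (τ1 b) = τ1 a := by rw [← h1, Complex.conj_conj]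
  have c1' : starRingEnd ℂ (τ1 d) = τ1 c := by rw [← h1', Complex.conj_conj]
  have c2 : starRingEnd ℂ (τ2 c) = τ2 a := by rw [← h2, Complex.conj_conj]
  have c2' : starRingEnd ℂ (τ2 d) = τ2 b := by rw [← h2', Complex.conj_conj]
  have c3 : starRingEnd ℂ (τ3 d) = τ3 a := by rw [← h3, Complex.conj_conj]
  have c3' : starRingEnd ℂ (τ3 b) = τ3 c := by rw [← h3', Complex.conj_conj]
  refine ⟨⟨![a, b, c, d], ?_, ?_, ?_⟩⟩
  · intro i
    fin_cases i
    · exact h.root
    · exact h.swap12.root
    · exact h.swap13.root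
    · exact h.swap14.root
  · intro i j hij
    fin_cases i <;> fin_cases j <;> first | rfl | (exfalso; revert hij; simp [h.ne12, h.ne13, h.ne14, h.ne23, h.ne24, h.ne34, h.ne12.symm, h.ne13.symm, h.ne14.symm, h.ne23.symm, h.ne24.symm, h.ne34.symm])
  · intro i j hij
    fin_cases i <;> fin_cases j
    · exact absurd rfl hij
    · exact ⟨τ1, h1⟩
    · exact ⟨τ2, h2⟩
    · exact ⟨τ3, h3⟩
    · exact ⟨τ1, c1⟩
    · exact absurd rfl hij
    · exact ⟨τ3, c3'⟩
    · exact ⟨τ2, h2'⟩
    · exact ⟨τ2, c2⟩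
    · exact ⟨τ3, h3'⟩
    · exact absurd rfl hij
    · exact ⟨τ1, h1'⟩
    · exact ⟨τ3, c3⟩
    · exact ⟨τ2, c2'⟩
    · exact ⟨τ1, c1'⟩
    · exact absurd rfl hij

end Pool.Agent.H492R2.Tor
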