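import Mathlib
import Pool.Agent.H492R2.Tor.QuarticField
import Pool.Agent.H492R2.Tor.Core3

set_option autoImplicit false
set_option linter.unusedSectionVars false

/-!
# The counterexample
-/

namespace Pool.Agent.H492R2.Tor

open Polynomial NumberField NumberField.InfinitePlace

/-- A field containing the roots of the quartic is totally complex. -/
lemma isEmpty_real {K : Type} [Field K] [NumberField K] (Q : QData K) :
    IsEmpty {w : InfinitePlace K // IsReal w} := by
  constructor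
  rintro ⟨w, hw⟩
  have h1 : ComplexEmbedding.IsReal w.embedding := isReal_iff.mp hw
  have h2 : starRingEnd ℂ (w.embedding (Q.α 0)) = w.embedding (Q.α 0) := by
    have := congrArg (fun φ : K →+* ℂ => φ (Q.α 0)) (ComplexEmbedding.isReal_iff.mp h1)
    simpa using this
  exact IsRoots.conj_ne (Q.map_root w.embedding 0) h2

section

variable {K : Type} [Field K] [NumberField K] (Q : QData K) (z₀ : ℂ)

/-- The values `(α i - x) ^ 4 / f x` for `x = 0, 1, 2`. -/
noncomputable def PU (x y : ℕ) (hy : y ≠ 0) (i : Fin 4) : Kˣ :=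
  Units.mk0 ((Q.α i - (x : K)) ^ 4 / (y : K)) (by
    apply div_ne_zero
    · apply pow_ne_zero
      intro h
      obtain ⟨τ, -⟩ := Q.pair 0 1 (by decide)
      have h1 := Q.map_root τ i
      have h2 : τ (Q.α i) = (x : ℂ) := by
        have := congrArg τ h
        rw [map_sub, map_zero, map_natCast, sub_eq_zero] at this
        exact this
      have h3 := im_ne h1
      rw [h2] at h3
      simp at h3
    · exact_mod_cast hy)

lemma log_PU (x y : ℕ) (hy : y ≠ 0) (hxy : (y : ℝ) = (x : ℝ) ^ 4 + x + 1) (i : Fin 4)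
    (τ : K →+* ℂ) :
    Real.log ‖τ ((PU Q x y hy i : Kˣ) : K)‖ = ell (x : ℝ) (τ (Q.α i)) := by
  have e : τ ((PU Q x y hy i : Kˣ) : K) = (τ (Q.α i) - ((x : ℝ) : ℂ)) ^ 4 / ((y : ℝ) : ℂ) := by
    show τ ((Q.α i - (x : K)) ^ 4 / (y : K)) = _
    rw [map_div₀, map_pow, map_sub, map_natCast, map_natCast]
    push_cast
    rfl
  rw [e, norm_div, norm_pow, Real.log_div, Real.log_pow, Complex.norm_real, Real.norm_natCast, hxy]
  · unfold ell
    push_cast
    ring
  · exact pow_ne_zero _ (root_sub_ne (Q.map_root τ i) _)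
  · rw [Complex.norm_real, Real.norm_natCast]
    exact_mod_cast hy

end

/-- The data for the counterexample. -/
theorem exists_Data {K : Type} [Field K] [NumberField K] (Q : QData K) : Nonempty (Data K) := by
  have hemp := isEmpty_real Q
  obtain ⟨τ₀, -⟩ := Q.pair 0 1 (by decide)
  set z₀ := τ₀ (Q.α 0) with hz₀def
  have hz₀ : z₀ ^ 4 + z₀ + 1 = 0 := Q.map_root τ₀ 0
  set p := ell 0 z₀ with hp
  set q := ell 1 z₀ with hq
  set r := ell 2 z₀ with hr
  have hind : ∀ a b c : ℚ, (a : ℝ) * p + (b : ℝ) * q + (c : ℝ) * r = 0 → a = 0 ∧ b = 0 ∧ c = 0 :=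
    fun a b c h => Q.indep_rat hz₀ a b c h
  have hsg : ∀ (x : ℝ) (τ : K →+* ℂ) (i : Fin 4), ell x (τ (Q.α i)) =
      (sg z₀ (τ (Q.α i)) : ℝ) * ell x z₀ := fun x τ i => ell_sg hz₀ (Q.map_root τ i) x
  have l0 : ∀ (τ : K →+* ℂ) (i : Fin 4), Real.log ‖τ ((PU Q 0 1 one_ne_zero i : Kˣ) : K)‖ =
      (sg z₀ (τ (Q.α i)) : ℝ) * p := by
    intro τ i
    rw [log_PU Q 0 1 _ (by norm_num) i τ]
    have := hsg 0 τ i
    simpa using this
  have l1 : ∀ (τ : K →+* ℂ) (i : Fin 4), Real.log ‖τ ((PU Q 1 3 three_ne_zero i : Kˣ) : K)‖ =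
      (sg z₀ (τ (Q.α i)) : ℝ) * q := by
    intro τ i
    rw [log_PU Q 1 3 _ (by norm_num) i τ]
    have := hsg 1 τ i
    simpa using this
  have l2 : ∀ (τ : K →+* ℂ) (i : Fin 4),
      Real.log ‖τ ((PU Q 2 19 (by norm_num) i : Kˣ) : K)‖ = (sg z₀ (τ (Q.α i)) : ℝ) * r := by
    intro τ i
    rw [log_PU Q 2 19 _ (by norm_num) i τ]
    have := hsg 2 τ i
    simpa using this
  -- the group elements
  let P0 : Fin 4 → Kˣ := PU Q 0 1 one_ne_zero
  let P1 : Fin 4 → Kˣ := PU Q 1 3 three_ne_zero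
  let P2 : Fin 4 → Kˣ := PU Q 2 19 (by norm_num)
  have hlog_mul : ∀ (τ : K →+* ℂ) (u v : Kˣ), Real.log ‖τ ((u * v : Kˣ) : K)‖ =
      Real.log ‖τ (u : K)‖ + Real.log ‖τ (v : K)‖ := by
    intro τ u v
    rw [Units.val_mul, map_mul, norm_mul, Real.log_mul]
    · rw [norm_ne_zero_iff, Ne, map_eq_zero]; exact u.ne_zero
    · rw [norm_ne_zero_iff, Ne, map_eq_zero]; exact v.ne_zero
  have hlog_inv : ∀ (τ : K →+* ℂ) (u : Kˣ), Real.log ‖τ ((u⁻¹ : Kˣ) : K)‖ =
      - Real.log ‖τ (u : K)‖ := by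
    intro τ u
    rw [Units.val_inv_eq_inv_val, map_inv₀, norm_inv, Real.log_inv]
  refine ⟨{
    s := fun w i => sg z₀ (w.1.embedding (Q.α (Fin.castSucc i)))
    lam := ![r, -q, p]
    x := ![P0 1 * P1 2, (P0 0)⁻¹ * P2 2, (P1 0)⁻¹ * (P2 1)⁻¹]
    T := ![![0, p, q], ![-p, 0, r], ![-q, -r, 0]]
    mu := ![r, -q, p]
    hs := ?_
    hlam := ?_
    hT := ?_
    hTl := ?_
    hmu := ?_
    hmuT := ?_
    hx := ?_ }⟩
  · intro t ht
    have key : ∀ τ : K →+* ℂ, ∑ i : Fin 3, t i * (sg z₀ (τ (Q.α (Fin.castSucc i))) : ℝ) = 0 := by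
      intro τ
      have hc : IsComplex (mk τ) := by
        by_contra h
        exact hemp.false ⟨mk τ, not_isComplex_iff_isReal.mp h⟩
      have h1 := ht ⟨mk τ, hc⟩
      rcases embedding_mk_eq τ with h | h
      · simp only [h] at h1
        exact h1
      · simp only [h, ComplexEmbedding.conjugate_coe_eq, sg_conj] at h1
        exact h1
    obtain ⟨τ1, h1⟩ := Q.pair 0 1 (by decide)
    obtain ⟨τ2, h2⟩ := Q.pair 0 2 (by decide)
    obtain ⟨τ3, h3⟩ := Q.pair 0 3 (by decide)
    have hne : ∀ (τ : K →+* ℂ) (i j : Fin 4), i ≠ j → τ (Q.α i) ≠ τ (Q.α j) := by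
      intro τ i j hij h
      exact hij (Q.inj (τ.injective h))
    have hn0 : ∀ z : ℂ, (sg z₀ z : ℝ) ≠ 0 := by
      intro z
      rcases sg_sq z₀ z with h | h <;> rw [h] <;> norm_num
    -- type 1
    have k1 := key τ1
    have k2 := key τ2
    have k3 := key τ3
    rw [Fin.sum_univ_three] at k1 k2 k3
    have e2 : (Fin.castSucc 2 : Fin 4) = 2 := rfl
    have e1 : (Fin.castSucc 1 : Fin 4) = 1 := rfl
    have e0 : (Fin.castSucc 0 : Fin 4) = 0 := rfl
    simp only [e2, e1, e0] at k1 k2 k3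
    have a1 : sg z₀ (τ1 (Q.α 1)) = sg z₀ (τ1 (Q.α 0)) := by rw [← h1, sg_conj]
    have a2 : sg z₀ (τ1 (Q.α 2)) = - sg z₀ (τ1 (Q.α 0)) :=
      sg_neg hz₀ (Q.map_root τ1 0) (Q.map_root τ1 2) (hne _ _ _ (by decide))
        (by rw [h1]; exact hne _ _ _ (by decide))
    have b1 : sg z₀ (τ2 (Q.α 2)) = sg z₀ (τ2 (Q.α 0)) := by rw [← h2, sg_conj]
    have b2 : sg z₀ (τ2 (Q.α 1)) = - sg z₀ (τ2 (Q.α 0)) :=
      sg_neg hz₀ (Q.map_root τ2 0) (Q.map_root τ2 1) (hne _ _ _ (by decide))
        (by rw [h2]; exact hne _ _ _ (by decide))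
    have c1 : sg z₀ (τ3 (Q.α 1)) = - sg z₀ (τ3 (Q.α 0)) :=
      sg_neg hz₀ (Q.map_root τ3 0) (Q.map_root τ3 1) (hne _ _ _ (by decide))
        (by rw [h3]; exact hne _ _ _ (by decide))
    have c2 : sg z₀ (τ3 (Q.α 2)) = - sg z₀ (τ3 (Q.α 0)) :=
      sg_neg hz₀ (Q.map_root τ3 0) (Q.map_root τ3 2) (hne _ _ _ (by decide))
        (by rw [h3]; exact hne _ _ _ (by decide))
    rw [a1, a2] at k1
    rw [b1, b2] at k2
    rw [c1, c2] at k3
    push_cast at k1 k2 k3
    have m1 : t 0 + t 1 - t 2 = 0 := by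
      have : (sg z₀ (τ1 (Q.α 0)) : ℝ) * (t 0 + t 1 - t 2) = 0 := by linear_combination k1
      exact (mul_eq_zero.mp this).resolve_left (hn0 _)
    have m2 : t 0 - t 1 + t 2 = 0 := by
      have : (sg z₀ (τ2 (Q.α 0)) : ℝ) * (t 0 - t 1 + t 2) = 0 := by linear_combination k2
      exact (mul_eq_zero.mp this).resolve_left (hn0 _)
    have m3 : t 0 - t 1 - t 2 = 0 := by
      have : (sg z₀ (τ3 (Q.α 0)) : ℝ) * (t 0 - t 1 - t 2) = 0 := by linear_combination k3
      exact (mul_eq_zero.mp this).resolve_left (hn0 _)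
    funext i
    fin_cases i
    · show t 0 = 0; linarith
    · show t 1 = 0; linarith
    · show t 2 = 0; linarith
  · intro a ha
    rw [Fin.sum_univ_three] at ha
    simp only [Matrix.cons_val_zero, Matrix.cons_val_one, Matrix.cons_val] at ha
    obtain ⟨h1, h2, h3⟩ := hind (a 2) (- a 1) (a 0) (by push_cast; linear_combination ha)
    funext i
    fin_cases i
    · exact h3
    · show a 1 = 0; linarith
    · exact h1
  · intro n hn
    have h0 := hn 0
    have h1 := hn 1
    rw [Fin.sum_univ_three] at h0 h1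
    simp only [Matrix.cons_val_zero, Matrix.cons_val_one, Matrix.cons_val] at h0 h1
    obtain ⟨k1, k2, -⟩ := hind (- (n 1 : ℚ)) (- (n 2 : ℚ)) 0 (by push_cast; linear_combination h0)
    obtain ⟨k3, -, -⟩ := hind (n 0 : ℚ) 0 (- (n 2 : ℚ)) (by push_cast; linear_combination h1)
    funext i
    fin_cases i
    · show n 0 = 0
      exact_mod_cast k3
    · show n 1 = 0
      have : (n 1 : ℚ) = 0 := by linarith
      exact_mod_cast this
    · show n 2 = 0
      have : (n 2 : ℚ) = 0 := by linarith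
      exact_mod_cast this
  · intro j
    rw [Fin.sum_univ_three]
    fin_cases j
    · simp; ring
    · simp; ring
    · simp; ring
  · intro h
    have h2 := congrFun h 2
    simp only [Matrix.cons_val, Pi.zero_apply] at h2
    obtain ⟨k, -, -⟩ := hind 1 0 0 (by rw [h2]; simp)
    norm_num at k
  · intro i
    rw [Fin.sum_univ_three]
    fin_cases i
    · simp; ring
    · simp; ring
    · simp; ring
  · intro j w
    rw [Fin.sum_univ_three]
    have e2 : (Fin.castSucc 2 : Fin 4) = 2 := rfl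
    have e1 : (Fin.castSucc 1 : Fin 4) = 1 := rfl
    have e0 : (Fin.castSucc 0 : Fin 4) = 0 := rfl
    fin_cases j
    · show Real.log ‖w.1.embedding ((P0 1 * P1 2 : Kˣ) : K)‖ = _
      rw [hlog_mul, l0, l1]
      simp [e0, e1, e2]
      ring
    · show Real.log ‖w.1.embedding (((P0 0)⁻¹ * P2 2 : Kˣ) : K)‖ = _
      rw [hlog_mul, hlog_inv, l0, l2]
      simp [e0, e1, e2]
      ring
    · show Real.log ‖w.1.embedding (((P1 0)⁻¹ * (P2 1)⁻¹ : Kˣ) : K)‖ = _
      rw [hlog_mul, hlog_inv, hlog_inv, l1, l2]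
      simp [e0, e1, e2]
      ring

/-- The expected answer fails for every number field containing the four roots of
`X ^ 4 + X + 1`. -/
theorem not_expected_of_isRoots {K : Type} [Field K] [NumberField K] {a b c d : K}
    (h : IsRoots a b c d) : ¬ ExpectedAnswerReal K := by
  obtain ⟨Q⟩ := exists_QData h
  obtain ⟨D⟩ := exists_Data Q
  have := isEmpty_real Q
  exact D.not_expected

/-- The quartic over `ℚ`. -/
noncomputable def fQ : ℚ[X] := X ^ 4 + X + 1

lemma fQ_eq : fQ = X ^ 4 + (X + C 1) := by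
  simp [fQ, add_assoc]

lemma fQ_monic : fQ.Monic := by
  rw [fQ_eq]
  monicity!

lemma fQ_natDegree : fQ.natDegree = 4 := by
  rw [fQ_eq]
  compute_degree!

lemma exists_isRoots {K : Type} [Field K] [CharZero K] [Algebra ℚ K]
    (hs : (fQ.map (algebraMap ℚ K)).Splits) : ∃ a b c d : K, IsRoots a b c d := by
  have hm : (fQ.map (algebraMap ℚ K)).Monic := fQ_monic.map _
  have hcard : (fQ.map (algebraMap ℚ K)).roots.card = 4 := by
    rw [← hs.natDegree_eq_card_roots, fQ_monic.natDegree_map, fQ_natDegree]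
  have hprod := hs.eq_prod_roots_of_monic hm
  obtain ⟨l, hl⟩ := Quot.exists_rep (fQ.map (algebraMap ℚ K)).roots
  have hl' : (l : Multiset K) = (fQ.map (algebraMap ℚ K)).roots := hl
  rw [← hl'] at hcard hprod
  rw [Multiset.coe_card] at hcard
  match l, hcard, hprod with
  | [a, b, c, d], _, hprod =>
    refine ⟨a, b, c, d, ?_⟩
    have hev : ∀ x : K, (x - a) * (x - b) * (x - c) * (x - d) = x ^ 4 + x + 1 := by
      intro x
      have h1 := congrArg (eval x) hprod
      simp [fQ] at h1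
      linear_combination (-1) * h1
    have v0 := hev 0
    have v1 := hev 1
    have v2 := hev (-1)
    have v3 := hev 2
    refine ⟨?_, ?_, ?_, ?_⟩
    · linear_combination (-(1 / 6)) * v3 + (1 / 2) * v1 + (1 / 6) * v2 - (1 / 2) * v0
    · linear_combination (1 / 2) * v1 + (1 / 2) * v2 - v0
    · linear_combination (1 / 3) * v2 - v1 + (1 / 6) * v3 + (1 / 2) * v0
    · linear_combination v0

/-- The expected answer fails for every number field over which `X ^ 4 + X + 1` splits. -/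
theorem not_expected_of_splits {K : Type} [Field K] [NumberField K]
    (hs : (fQ.map (algebraMap ℚ K)).Splits) : ¬ ExpectedAnswerReal K := by
  obtain ⟨a, b, c, d, h⟩ := exists_isRoots hs
  exact not_expected_of_isRoots h

/-- The splitting field of `X ^ 4 + X + 1`. -/
abbrev KK : Type := fQ.SplittingField

instance : NumberField KK where
  to_charZero := charZero_of_injective_algebraMap (algebraMap ℚ KK).injective
  to_finiteDimensional := by
    have : FiniteDimensional ℚ KK := inferInstance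
    convert this

/-- The expected answer fails for the splitting field. -/
theorem not_expected_KK : ¬ ExpectedAnswerReal KK := by
  obtain ⟨a, b, c, d, h⟩ := exists_isRoots (K := KK) (SplittingField.splits fQ)
  exact not_expected_of_isRoots h

end Pool.Agent.H492R2.Tor
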